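import Pool.Agent.N975.JT.Rn3
import Pool.Agent.N972.JT.Wt

/-!
# JT: the densities of the classes for the triple (15,17,21)

The sums of the weights modulo `7140` are the products of the sums modulo `420` (file `Rn3`) and of the
sums modulo `17`.
-/

set_option autoImplicit false
set_option linter.all false

namespace Pool.Agent.N975.JT

open Finset Filter
open Pool.Agent.N919.BS (NS NF HG Rt17)
open Pool.Agent.N855.GF (RR)
open Pool.Agent.N916.PQ (f15 NS_ne NF_ne fi)
open Pool.Agent.N809.Red21 (f21 fD)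

/-- all the three root numbers (levels 15, 17 and 21) are `+1` -/
def f3 (m : ℤ) : Bool := f15 m && f17 m && f21 m

/-- the class in which the criteria of the levels 15 and 21 are the same, with the root number `+1` of
level 17 -/
def fEq17 (m : ℤ) : Bool := fEq m && f17 m

/-- all the three root numbers are `+1`, outside the class `fEq` -/
def fNe17 (m : ℤ) : Bool := fNe m && f17 m

/-- the weights modulo `7140` -/
def wQ (a : ℕ) : ℕ := (if a % 3 = 0 then 2 else 3) * (if a % 5 = 0 then 4 else 5) * (if a % 7 = 0 then 6 else 7) * (if a % 17 = 0 then 16 else 17)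

theorem sq1785 : Squarefree 1785 := Pool.Agent.N972.JT.Wt.sq1785

theorem wQ_div : ∀ g ∈ Nat.divisors 1785, Nat.Coprime g (7140 / g) ∧
    Nat.totient g * 1785 = wQ g * g := by
  decide +kernel

theorem wQ_key (a : ℕ) (ha : a ∈ range 7140) (h2 : a % 2 = 1) : a.gcd 7140 ∣ 1785 ∧
    (RR 7140 a).card * 1785 = wQ a * a.gcd 7140 := by
  have hg : a.gcd 7140 ∣ 1785 := by
    have h1 : Nat.Coprime (a.gcd 7140) 4 := by
      have : Nat.Coprime a 2 := Nat.coprime_two_right.2 (Nat.odd_iff.2 h2)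
      have h4 : Nat.Coprime a 4 := by
        have : Nat.Coprime a (2 ^ 2) := Nat.Coprime.pow_right 2 this
        simpa using this
      exact Nat.Coprime.coprime_dvd_left (Nat.gcd_dvd_left _ _) h4
    have h3 : a.gcd 7140 ∣ 4 * 1785 := Nat.gcd_dvd_right a 7140
    exact h1.dvd_of_dvd_mul_left h3
  obtain ⟨h3, h4⟩ := wQ_div _ (Nat.mem_divisors.2 ⟨hg, by norm_num⟩)
  have hw : wQ (a.gcd 7140) = wQ a := by
    have hp : ∀ p, p ∣ 7140 → (a.gcd 7140 % p = 0 ↔ a % p = 0) := by
      intro p hp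
      rw [← Nat.dvd_iff_mod_eq_zero, ← Nat.dvd_iff_mod_eq_zero, Nat.dvd_gcd_iff]
      exact and_iff_left hp
    unfold wQ
    simp only [hp 3 (by norm_num), hp 5 (by norm_num), hp 7 (by norm_num), hp 17 (by norm_num)]
  rw [hw] at h4
  refine ⟨hg, ?_⟩
  rw [Pool.Agent.N972.JT.Wt.RR_gen (by norm_num) h3]
  exact h4

theorem wdQ : Wd 7140 1785 wQ where
  pos := by norm_num
  four := by norm_num
  q0 := by norm_num
  key := fun a ha h2 => ⟨sq1785.squarefree_of_dvd (wQ_key a ha h2).1, (wQ_key a ha h2).2⟩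

/-! ### the Chinese remainder theorem for the sums of the weights -/

theorem crt_sum {m n : ℕ} (h : Nat.Coprime m n) (hm : 0 < m) (hn : 0 < n) (F G : ℕ → ℤ) :
    ∑ a ∈ range (m * n), F (a % m) * G (a % n) = (∑ x ∈ range m, F x) * ∑ y ∈ range n, G y := by
  rw [Finset.sum_mul_sum, ← Finset.sum_product']
  refine Finset.sum_nbij (fun a => (a % m, a % n)) ?_ ?_ ?_ ?_
  · intro a _
    exact mem_product.2 ⟨mem_range.2 (Nat.mod_lt _ hm), mem_range.2 (Nat.mod_lt _ hn)⟩
  · intro a ha b hb hab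
    have h1 : a % m = b % m := congrArg Prod.fst hab
    have h2 : a % n = b % n := congrArg Prod.snd hab
    have h3 : a ≡ b [MOD m * n] := (Nat.modEq_and_modEq_iff_modEq_mul h).1 ⟨h1, h2⟩
    exact Nat.ModEq.eq_of_lt_of_lt h3 (mem_range.1 ha) (mem_range.1 hb)
  · rintro ⟨x, y⟩ hxy
    obtain ⟨hx, hy⟩ := mem_product.1 (mem_coe.1 hxy)
    obtain ⟨r, h1, h2⟩ := Nat.chineseRemainder h x y
    refine ⟨r % (m * n), mem_coe.2 (mem_range.2 (Nat.mod_lt _ (Nat.mul_pos hm hn))), ?_⟩
    have e1 : r % (m * n) % m = x := by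
      rw [Nat.mod_mod_of_dvd r (dvd_mul_right m n)]
      have : r % m = x % m := h1
      rw [this, Nat.mod_eq_of_lt (mem_range.1 hx)]
    have e2 : r % (m * n) % n = y := by
      rw [Nat.mod_mod_of_dvd r (dvd_mul_left n m)]
      have : r % n = y % n := h2
      rw [this, Nat.mod_eq_of_lt (mem_range.1 hy)]
    exact Prod.ext e1 e2
  · intro a _
    rfl

/-- the weights modulo `17` -/
def w17 (b : ℕ) : ℕ := if b = 0 then 16 else 17

/-- the sum of the weights modulo `17` -/
def V17 (g : ℤ → Bool) (s : ℤ) (k : ℕ) : ℤ :=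
  ∑ b ∈ range 17, (if g (s * (k * (b + 17) : ℕ)) = true then 1 else 0) * (w17 b : ℤ)

theorem WF_mul {f g : ℤ → Bool} {s : ℤ} {k c : ℕ} (hc : c = 1 ∨ c = 3)
    (hf : ∀ n : ℕ, n % 2 = 1 → f (s * (k * n : ℕ)) = f (s * (k * (n % 420) : ℕ)))
    (hg : ∀ n : ℕ, n % 2 = 1 → g (s * (k * n : ℕ)) = g (s * (k * (n % 17 + 17) : ℕ))) :
    WF 7140 wQ (fun m => f m && g m) s k c = WF 420 wP f s k c * V17 g s k := by
  unfold WF V17
  rw [← crt_sum (m := 420) (n := 17) (by norm_num) (by norm_num) (by norm_num)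
    (fun x => fi f s k c x * (wP x : ℤ))
    (fun b => (if g (s * (k * (b + 17) : ℕ)) = true then 1 else 0) * (w17 b : ℤ))]
  refine Finset.sum_congr rfl fun a _ => ?_
  show fi (fun m => f m && g m) s k c a * (wQ a : ℤ) = fi f s k c (a % 420) * (wP (a % 420) : ℤ) *
    ((if g (s * (k * (a % 17 + 17) : ℕ)) = true then 1 else 0) * (w17 (a % 17) : ℤ))
  have hw : (wQ a : ℤ) = (wP (a % 420) : ℤ) * (w17 (a % 17) : ℤ) := by
    have e3 : a % 420 % 3 = a % 3 := Nat.mod_mod_of_dvd a (by norm_num)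
    have e5 : a % 420 % 5 = a % 5 := Nat.mod_mod_of_dvd a (by norm_num)
    have e7 : a % 420 % 7 = a % 7 := Nat.mod_mod_of_dvd a (by norm_num)
    have e : wQ a = wP (a % 420) * w17 (a % 17) := by
      unfold wQ wP w17
      rw [e3, e5, e7]
    rw [e]
    push_cast
    ring
  have e4 : a % 420 % 4 = a % 4 := Nat.mod_mod_of_dvd a (by norm_num)
  unfold fi
  by_cases h : a % 4 = c
  · have h2 : a % 2 = 1 := by omega
    have h4 : a % 420 % 4 = c := e4.trans h
    beta_reduce
    rw [hw, hf a h2, hg a h2]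
    cases h5 : f (s * (k * (a % 420) : ℕ)) <;> cases h6 : g (s * (k * (a % 17 + 17) : ℕ)) <;>
      simp [h, h4]
  · have h4 : ¬ a % 420 % 4 = c := fun h' => h (e4.symm.trans h')
    rw [if_neg (fun h' => h h'.1), if_neg (fun h' => h4 h'.1)]
    ring

theorem per17 {s : ℤ} {k : ℕ} (hs : s = 1 ∨ s = -1) (hk : k = 1 ∨ k = 2) (n : ℕ) (hn : n % 2 = 1) :
    f17 (s * (k * n : ℕ)) = f17 (s * (k * (n % 17 + 17) : ℕ)) := by
  unfold f17
  have e0 : (s * (k * n : ℕ) < 0) ↔ (s * (k * (n % 17 + 17) : ℕ) < 0) := by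
    rcases hs with rfl | rfl <;> rcases hk with rfl | rfl <;> push_cast <;> omega
  have e1 : (0 < s * (k * n : ℕ)) ↔ (0 < s * (k * (n % 17 + 17) : ℕ)) := by
    rcases hs with rfl | rfl <;> rcases hk with rfl | rfl <;> push_cast <;> omega
  have e17 : (s * (k * n : ℕ)) % 17 = (s * (k * (n % 17 + 17) : ℕ)) % 17 := by
    rcases hs with rfl | rfl <;> rcases hk with rfl | rfl <;> push_cast <;> omega
  simp only [e0, e1, e17]

theorem V17_pos {k : ℕ} (hk : k = 1 ∨ k = 2) : V17 f17 1 k = 136 := by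
  rcases hk with rfl | rfl <;> decide +kernel

theorem V17_neg {k : ℕ} (hk : k = 1 ∨ k = 2) : V17 f17 (-1) k = 152 := by
  rcases hk with rfl | rfl <;> decide +kernel

theorem V17_true : V17 (fun _ => true) 1 1 = 288 := by
  decide +kernel

/-- the class `f` and the root number condition of level 17 -/
theorem Cl_mul {f : ℤ → Bool} {A B T : ℤ} (H : Cl 420 105 wP f A B T) :
    Cl 7140 1785 wQ (fun m => f m && f17 m) (A * 136) (B * 152) (T * 288) where
  wd := wdQ
  per := by
    intro s k n hs hk hn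
    have h1 := H.per s k n hs hk hn
    have h2 := H.per s k (n % 7140) hs hk (by omega)
    rw [Nat.mod_mod_of_dvd n (by norm_num : 420 ∣ 7140)] at h2
    have h3 := per17 hs hk n hn
    have h4 := per17 hs hk (n % 7140) (by omega)
    rw [Nat.mod_mod_of_dvd n (by norm_num : 17 ∣ 7140)] at h4
    show (f (s * (k * n : ℕ)) && f17 (s * (k * n : ℕ))) =
      (f (s * (k * (n % 7140) : ℕ)) && f17 (s * (k * (n % 7140) : ℕ)))
    rw [h1, h3, h2, h4]
  wA := by
    intro k c hk hc
    rw [WF_mul hc (fun n hn => H.per 1 k n (Or.inl rfl) hk hn)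
      (fun n hn => per17 (Or.inl rfl) hk n hn), H.wA k c hk hc, V17_pos hk]
  wB := by
    intro k c hk hc
    rw [WF_mul hc (fun n hn => H.per (-1) k n (Or.inr rfl) hk hn)
      (fun n hn => per17 (Or.inr rfl) hk n hn), H.wB k c hk hc, V17_neg hk]
  wT := by
    intro c hc
    have h := WF_mul (f := fun _ => true) (g := fun _ => true) (s := 1) (k := 1) hc
      (fun _ _ => rfl) (fun _ _ => rfl)
    rw [H.wT c hc, V17_true] at h
    exact h
  T0 := mul_pos H.T0 (by norm_num)

theorem f3_eq : f3 = fun m => f1521 m && f17 m := by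
  funext m
  unfold f3 f1521
  cases f15 m <;> cases f17 m <;> cases f21 m <;> rfl

theorem clT : Cl 7140 1785 wQ f3 287232 372096 2654208 := by
  have h := Cl_mul clP
  rw [← f3_eq] at h
  norm_num at h
  exact h

/-- the density of the class `f3` -/
theorem clT_NS : Tendsto (fun X : ℕ => (NS (fun d => f3 d = true) X : ℝ) /
    (NS (fun _ => True) X : ℝ)) atTop (nhds (1717 / 13824)) := by
  have e : (((287232 : ℤ) : ℝ) + (372096 : ℤ)) / (2 * (2654208 : ℤ)) = 1717 / 13824 := by norm_num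
  rw [← e]
  exact rat_NS clT

theorem clT_NF : Tendsto (fun X : ℕ => (NF (fun d => f3 d = true) X : ℝ) /
    (NF (fun _ => True) X : ℝ)) atTop (nhds (1717 / 13824)) := by
  have e : (((287232 : ℤ) : ℝ) + (372096 : ℤ)) / (2 * (2654208 : ℤ)) = 1717 / 13824 := by norm_num
  rw [← e]
  exact rat_NF clT

/-- a criterion of relative density `η` in the class `f3` -/
theorem clT_GS {G : ℤ → Prop} {η : ℝ} (hG : HG (fun d => f3 d = true) G η) :
    Tendsto (fun X : ℕ => (NS (fun d => f3 d = true ∧ G d) X : ℝ) /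
    (NS (fun _ => True) X : ℝ)) atTop (nhds (1717 / 13824 * η)) := by
  have e : (((287232 : ℤ) : ℝ) + (372096 : ℤ)) / (2 * (2654208 : ℤ)) = 1717 / 13824 := by norm_num
  rw [← e]
  exact ratG_NS clT hG

theorem clT_GF {G : ℤ → Prop} {η : ℝ} (hG : HG (fun d => f3 d = true) G η) :
    Tendsto (fun X : ℕ => (NF (fun d => f3 d = true ∧ G d) X : ℝ) /
    (NF (fun _ => True) X : ℝ)) atTop (nhds (1717 / 13824 * η)) := by
  have e : (((287232 : ℤ) : ℝ) + (372096 : ℤ)) / (2 * (2654208 : ℤ)) = 1717 / 13824 := by norm_num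
  rw [← e]
  exact ratG_NF clT hG

theorem clF : Cl 7140 1785 wQ fEq17 0 114912 2654208 := by
  have h := Cl_mul clE
  norm_num at h
  exact h

/-- the density of the class `fEq17` -/
theorem clF_NS : Tendsto (fun X : ℕ => (NS (fun d => fEq17 d = true) X : ℝ) /
    (NS (fun _ => True) X : ℝ)) atTop (nhds (133 / 6144)) := by
  have e : (((0 : ℤ) : ℝ) + (114912 : ℤ)) / (2 * (2654208 : ℤ)) = 133 / 6144 := by norm_num
  rw [← e]
  exact rat_NS clF

theorem clF_NF : Tendsto (fun X : ℕ => (NF (fun d => fEq17 d = true) X : ℝ) /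
    (NF (fun _ => True) X : ℝ)) atTop (nhds (133 / 6144)) := by
  have e : (((0 : ℤ) : ℝ) + (114912 : ℤ)) / (2 * (2654208 : ℤ)) = 133 / 6144 := by norm_num
  rw [← e]
  exact rat_NF clF

/-- a criterion of relative density `η` in the class `fEq17` -/
theorem clF_GS {G : ℤ → Prop} {η : ℝ} (hG : HG (fun d => fEq17 d = true) G η) :
    Tendsto (fun X : ℕ => (NS (fun d => fEq17 d = true ∧ G d) X : ℝ) /
    (NS (fun _ => True) X : ℝ)) atTop (nhds (133 / 6144 * η)) := by
  have e : (((0 : ℤ) : ℝ) + (114912 : ℤ)) / (2 * (2654208 : ℤ)) = 133 / 6144 := by norm_num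
  rw [← e]
  exact ratG_NS clF hG

theorem clF_GF {G : ℤ → Prop} {η : ℝ} (hG : HG (fun d => fEq17 d = true) G η) :
    Tendsto (fun X : ℕ => (NF (fun d => fEq17 d = true ∧ G d) X : ℝ) /
    (NF (fun _ => True) X : ℝ)) atTop (nhds (133 / 6144 * η)) := by
  have e : (((0 : ℤ) : ℝ) + (114912 : ℤ)) / (2 * (2654208 : ℤ)) = 133 / 6144 := by norm_num
  rw [← e]
  exact ratG_NF clF hG

theorem clG : Cl 7140 1785 wQ fNe17 287232 257184 2654208 := by
  have h := Cl_mul clN
  norm_num at h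
  exact h

/-- the density of the class `fNe17` -/
theorem clG_NS : Tendsto (fun X : ℕ => (NS (fun d => fNe17 d = true) X : ℝ) /
    (NS (fun _ => True) X : ℝ)) atTop (nhds (5671 / 55296)) := by
  have e : (((287232 : ℤ) : ℝ) + (257184 : ℤ)) / (2 * (2654208 : ℤ)) = 5671 / 55296 := by norm_num
  rw [← e]
  exact rat_NS clG

theorem clG_NF : Tendsto (fun X : ℕ => (NF (fun d => fNe17 d = true) X : ℝ) /
    (NF (fun _ => True) X : ℝ)) atTop (nhds (5671 / 55296)) := by
  have e : (((287232 : ℤ) : ℝ) + (257184 : ℤ)) / (2 * (2654208 : ℤ)) = 5671 / 55296 := by norm_num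
  rw [← e]
  exact rat_NF clG

/-- a criterion of relative density `η` in the class `fNe17` -/
theorem clG_GS {G : ℤ → Prop} {η : ℝ} (hG : HG (fun d => fNe17 d = true) G η) :
    Tendsto (fun X : ℕ => (NS (fun d => fNe17 d = true ∧ G d) X : ℝ) /
    (NS (fun _ => True) X : ℝ)) atTop (nhds (5671 / 55296 * η)) := by
  have e : (((287232 : ℤ) : ℝ) + (257184 : ℤ)) / (2 * (2654208 : ℤ)) = 5671 / 55296 := by norm_num
  rw [← e]
  exact ratG_NS clG hG

theorem clG_GF {G : ℤ → Prop} {η : ℝ} (hG : HG (fun d => fNe17 d = true) G η) :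
    Tendsto (fun X : ℕ => (NF (fun d => fNe17 d = true ∧ G d) X : ℝ) /
    (NF (fun _ => True) X : ℝ)) atTop (nhds (5671 / 55296 * η)) := by
  have e : (((287232 : ℤ) : ℝ) + (257184 : ℤ)) / (2 * (2654208 : ℤ)) = 5671 / 55296 := by norm_num
  rw [← e]
  exact ratG_NF clG hG

end Pool.Agent.N975.JT
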