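import Pool.Agent.N975.JT.Rn

/-!
# JT: the densities of the classes for the pair of the levels 17 and 21 (ordinary classes of level 21)
-/

set_option autoImplicit false
set_option linter.all false

namespace Pool.Agent.N975.JT

open Finset Filter
open Pool.Agent.N919.BS (NS NF HG Rt17)
open Pool.Agent.N855.GF (RR)
open Pool.Agent.N916.PQ (NS_ne NF_ne)
open Pool.Agent.N916.PQ.L21 (fO)

/-- both root numbers are `+1` and the class of level `21` is ordinary -/
def fK (m : ℤ) : Bool := fO m && f17 m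

theorem fK_iff (m : ℤ) : fK m = true ↔ fO m = true ∧ Rt17 m := by
  unfold fK
  rw [Bool.and_eq_true, f17_iff]

theorem fK_fun : (fun d => fK d = true) = fun d => fO d = true ∧ Rt17 d :=
  funext fun d => propext (fK_iff d)

/-- the weights modulo `1428` -/
def wK (a : ℕ) : ℕ := (if a % 3 = 0 then 2 else 3) * (if a % 7 = 0 then 6 else 7) *
  (if a % 17 = 0 then 16 else 17)

/-- the number of classes, counted along the progression -/
theorem RR_card {q : ℕ} (a : ℕ) (hq : 0 < q) : (RR q a).card =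
    ((range (a.gcd q)).filter fun j =>
      Nat.Coprime ((a / a.gcd q) % (q / a.gcd q) + j * (q / a.gcd q)) q).card := by
  have hg : 0 < a.gcd q := Nat.gcd_pos_of_pos_right a hq
  have hn : (q / a.gcd q) * a.gcd q = q := Nat.div_mul_cancel (Nat.gcd_dvd_right a q)
  unfold RR
  generalize a.gcd q = g at hg hn ⊢
  generalize q / g = n at hn ⊢
  have hn0 : 0 < n := by
    rcases Nat.eq_zero_or_pos n with h | h
    · subst h; omega
    · exact h
  generalize a / g = b
  have hb : b % n < n := Nat.mod_lt _ hn0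
  symm
  apply Finset.card_bij (fun j _ => b % n + j * n)
  · intro j hj
    rw [mem_filter, mem_range] at hj ⊢
    refine ⟨?_, hj.2, ?_⟩
    · have h1 : (j + 1) * n ≤ g * n := Nat.mul_le_mul_right n hj.1
      have h2 : g * n = q := by rw [Nat.mul_comm]; exact hn
      rw [Nat.add_mul, Nat.one_mul] at h1
      omega
    · rw [Nat.add_mul_mod_self_right, Nat.mod_mod]
  · intro i _ j _ h
    have h' : i * n = j * n := by
      have : b % n + i * n = b % n + j * n := h
      omega
    exact Nat.eq_of_mul_eq_mul_right hn0 h'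
  · intro r hr
    rw [mem_filter, mem_range] at hr
    have h3 : b % n + r / n * n = r := by
      rw [← hr.2.2]
      have := Nat.mod_add_div r n
      rw [Nat.mul_comm n] at this
      exact this
    refine ⟨r / n, ?_, h3⟩
    rw [mem_filter, mem_range]
    refine ⟨?_, ?_⟩
    · apply Nat.div_lt_of_lt_mul
      rw [hn]
      exact hr.1
    · rw [h3]
      exact hr.2.1

theorem wK_key' : ∀ a ∈ range 1428, a % 2 = 1 → a.gcd 1428 ∣ 357 ∧
    ((range (a.gcd 1428)).filter fun j =>
      Nat.Coprime ((a / a.gcd 1428) % (1428 / a.gcd 1428) + j * (1428 / a.gcd 1428)) 1428).card * 357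
        = wK a * a.gcd 1428 := by
  decide +kernel

theorem wK_key (a : ℕ) (ha : a ∈ range 1428) (h2 : a % 2 = 1) : a.gcd 1428 ∣ 357 ∧
    (RR 1428 a).card * 357 = wK a * a.gcd 1428 := by
  rw [RR_card a (by norm_num)]
  exact wK_key' a ha h2

theorem sq357 : Squarefree 357 := by
  have h : (357 : ℕ) = 3 * (7 * 17) := by norm_num
  rw [h, Nat.squarefree_mul (by norm_num), Nat.squarefree_mul (by norm_num)]
  exact ⟨Nat.prime_three.squarefree, (by norm_num : Nat.Prime 7).squarefree,
    (by norm_num : Nat.Prime 17).squarefree⟩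

theorem wdK : Wd 1428 357 wK where
  pos := by norm_num
  four := by norm_num
  q0 := by norm_num
  key := fun a ha h2 => ⟨sq357.squarefree_of_dvd (wK_key a ha h2).1, (wK_key a ha h2).2⟩

theorem perK : ∀ (s : ℤ) (k n : ℕ), (s = 1 ∨ s = -1) → (k = 1 ∨ k = 2) → n % 2 = 1 →
    fK (s * (k * n : ℕ)) = fK (s * (k * (n % 1428) : ℕ)) := by
  intro s k n hs hk hn
  unfold fK Pool.Agent.N916.PQ.L21.fO Pool.Agent.N809.Red21.f21 Pool.Agent.N809.Red21.fD f17
  have e0 : (s * (k * n : ℕ) < 0) ↔ (s * (k * (n % 1428) : ℕ) < 0) := by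
    rcases hs with rfl | rfl <;> rcases hk with rfl | rfl <;> push_cast <;> omega
  have e1 : (0 < s * (k * n : ℕ)) ↔ (0 < s * (k * (n % 1428) : ℕ)) := by
    rcases hs with rfl | rfl <;> rcases hk with rfl | rfl <;> push_cast <;> omega
  have e3 : (s * (k * n : ℕ)) % 3 = (s * (k * (n % 1428) : ℕ)) % 3 := by
    rcases hs with rfl | rfl <;> rcases hk with rfl | rfl <;> push_cast <;> omega
  have e7 : (s * (k * n : ℕ)) % 7 = (s * (k * (n % 1428) : ℕ)) % 7 := by
    rcases hs with rfl | rfl <;> rcases hk with rfl | rfl <;> push_cast <;> omega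
  have e17 : (s * (k * n : ℕ)) % 17 = (s * (k * (n % 1428) : ℕ)) % 17 := by
    rcases hs with rfl | rfl <;> rcases hk with rfl | rfl <;> push_cast <;> omega
  simp only [e0, e1, e3, e7, e17]

theorem clK : Cl 1428 357 wK fK 14280 30096 110592 where
  wd := wdK
  per := perK
  wA := by rintro k c (rfl | rfl) (rfl | rfl) <;> decide +kernel
  wB := by rintro k c (rfl | rfl) (rfl | rfl) <;> decide +kernel
  wT := by rintro c (rfl | rfl) <;> decide +kernel
  T0 := by norm_num

section
variable {G : ℤ → Prop} {η : ℝ}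

/-- **a criterion of relative density `η` in all classes (squarefree integers)** -/
theorem kt_NS (hG : HG (fun d => fO d = true ∧ Rt17 d) G η) :
    Tendsto (fun X : ℕ => (NS (fun d => (fO d = true ∧ Rt17 d) ∧ G d) X : ℝ) /
      (NS (fun _ => True) X : ℝ)) atTop (nhds (1849 / 9216 * η)) ∧
    Tendsto (fun X : ℕ => (NS (fun d => (fO d = true ∧ Rt17 d) ∧ G d) X : ℝ) /
      (NS (fun d => fO d = true ∧ Rt17 d) X : ℝ)) atTop (nhds η) := by
  have e : (((14280 : ℤ) : ℝ) + (30096 : ℤ)) / (2 * (110592 : ℤ)) = 1849 / 9216 := by norm_num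
  have hf : (fun d => fK d = true ∧ G d) = fun d => (fO d = true ∧ Rt17 d) ∧ G d :=
    funext fun d => by rw [fK_iff]
  rw [← fK_fun] at hG
  have h1 := rat_NS clK
  have h2 := ratG_NS clK hG
  have h3 := relG (N := NS) (by norm_num) NS_ne h1 h2
  rw [e, hf] at h2
  rw [hf, fK_fun] at h3
  exact ⟨h2, h3⟩

/-- **a criterion of relative density `η` in all classes (discriminants)** -/
theorem kt_NF (hG : HG (fun d => fO d = true ∧ Rt17 d) G η) :
    Tendsto (fun X : ℕ => (NF (fun d => (fO d = true ∧ Rt17 d) ∧ G d) X : ℝ) /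
      (NF (fun _ => True) X : ℝ)) atTop (nhds (1849 / 9216 * η)) ∧
    Tendsto (fun X : ℕ => (NF (fun d => (fO d = true ∧ Rt17 d) ∧ G d) X : ℝ) /
      (NF (fun d => fO d = true ∧ Rt17 d) X : ℝ)) atTop (nhds η) := by
  have e : (((14280 : ℤ) : ℝ) + (30096 : ℤ)) / (2 * (110592 : ℤ)) = 1849 / 9216 := by norm_num
  have hf : (fun d => fK d = true ∧ G d) = fun d => (fO d = true ∧ Rt17 d) ∧ G d :=
    funext fun d => by rw [fK_iff]
  rw [← fK_fun] at hG
  have h1 := rat_NF clK
  have h2 := ratG_NF clK hG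
  have h3 := relG (N := NF) (by norm_num) NF_ne h1 h2
  rw [e, hf] at h2
  rw [hf, fK_fun] at h3
  exact ⟨h2, h3⟩

end

end Pool.Agent.N975.JT
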