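import Pool.Agent.N972.JT.Sd
import Pool.Agent.N916.PQ.Main21

/-!
# JT: the level 21 side of the joint theorem, ordinary classes
-/

set_option autoImplicit false
set_option linter.all false

open scoped Classical

namespace Pool.Agent.N975.JT

open Finset Filter
open Pool.Agent.Y703.CQ (nr sg)
open Pool.Agent.N973.ND (uu nr_rec nr_self)
open Pool.Agent.N916.GB (Po Vt sy Ev Gv Gd z2_add_self eta)
open Pool.Agent.N958.GB (NR ud wd z2 mem_Vt sy_ne sy_two Gd_iff)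
open Pool.Agent.N875.X15 (PR ra sgp d2 oe ch)
open Pool.Agent.N875.P17 (al ra_rec al_odd ra_neg_one)
open Pool.Agent.N809 Pool.Agent.N809.PQ
open Pool.Agent.N916.PQ
open Pool.Agent.N916.PQ.L21 (per3 per7 not3 not7 hf7 hv3 G21 fO fO_pos fO_neg)
open Pool.Agent.N809.JT (J15)
open Pool.Agent.N972.JT (j_a j_b KJ KKm)

section
variable {M : ℕ} {s' : ℤ} {k c : ℕ} {t : Bool} {r s : ZMod 2}

theorem m21 (hM : 168 ∣ M) (hM0 : 0 < M) {P : ℤ → Prop} (hP : Per 21 P) {s' : ℤ} {k c : ℕ}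
    {n : ℕ} : n % M ∈ KK M P s' k c ↔ n % 4 = c ∧ P (s' * (k * n : ℕ)) :=
  mem_KK hM0 ((by norm_num : 4 ∣ 168).trans hM) ((by norm_num : 21 ∣ 168).trans hM) hP

theorem pf21 (hM : 168 ∣ M) (hM0 : 0 < M) {g : ℕ} (hg : g = 3 ∨ g = 7) : g ∈ M.primeFactors := by
  rw [Nat.mem_primeFactors]
  rcases hg with rfl | rfl
  · exact ⟨by norm_num, (by norm_num : 3 ∣ 168).trans hM, hM0.ne'⟩
  · exact ⟨by norm_num, (by norm_num : 7 ∣ 168).trans hM, hM0.ne'⟩

/-- **class A** -/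
theorem jA21 (hM : 168 ∣ M) (hM0 : 0 < M) (H : PM s' k c t r s) (hs : s' = -1) :
    J15 M (KK M (fun m => ¬ C3 m ∧ ¬ C7 m) s' k c) t r s (G21 s' k) := by
  refine j_a ((by norm_num : 8 ∣ 168).trans hM) hM0 H.tr ?_
  intro V _ ρ S hS hK hne hρ him
  obtain ⟨h4, h3, h5⟩ := (m21 hM hM0 (per3.not.and per7.not)).1 hK
  obtain ⟨e1, e2, e3⟩ := prodS hS
  have D := H.dt hS h4 hρ him
  obtain ⟨i, hi⟩ := ne_V hne him
  haveI : Nonempty V := ⟨i⟩
  have h0 := H.neg' e3 hs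
  refine ⟨?_, fun j => ?_⟩
  · unfold Pool.Agent.N916.PQ.L21.G21
    rw [Red21.sgA D.ix D.sq ⟨i, dvd_m hi s' k⟩ h0 h3 h5]
    exact Gv_congr D.hlm
  · have := colx D.ix D.sq j
    rw [if_neg (by omega), D.hlm, D.hwx, zero_mul, add_zero] at this
    exact this

/-- **class B** -/
theorem jB21 (hM : 168 ∣ M) (hM0 : 0 < M) (H : PM s' k c t r s) (hs : s' = 1) :
    J15 M (KK M (fun m => ¬ C3 m ∧ C7 m) s' k c) t r s (G21 s' k) := by
  refine j_b (t := t) (r := r) (s := s) (g := 7) (h := 7) (fu := fun p => ra p (-7))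
    (fw := fun p => if p = 2 then s else uu p) (e := 1) (x0 := 1) (κ := 1) (a0 := 0) (κ' := 1)
    ((by norm_num : 8 ∣ 168).trans hM) hM0 H.tr (pf21 hM hM0 (Or.inr rfl)) (by norm_num)
    (pf21 hM hM0 (Or.inr rfl)) (by norm_num) (fun a ha => not7 (KJ ha).2.2)
    (fun a ha => not7 (KJ ha).2.2) (hf7 ((by norm_num : 7 ∣ 168).trans hM)) (fun p hp _ => by
      rw [if_neg hp.2]; ring) (Or.inr rfl) ?_
  intro V _ ρ S hS hK hne hρ him
  obtain ⟨h4, h3, h7⟩ := (m21 hM hM0 (per3.not.and per7)).1 hK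
  obtain ⟨e1, e2, e3⟩ := prodS hS
  have D := H.dt hS h4 hρ him
  obtain ⟨i, hi⟩ := ne_V hne him
  haveI : Nonempty V := ⟨i⟩
  have h0 := H.pos e3 hs
  obtain ⟨f1, f2, f3⟩ := Red21.factsB D.ix D.sq h0 h7
  refine ⟨?_, ?_, fun j => ?_, ?_⟩
  · unfold Pool.Agent.N916.PQ.L21.G21
    rw [Red21.sgB D.ix D.sq h0 h3 h7, Kb_congr D.hlm, D.hua]
    rfl
  · rw [D.hua] at f1
    exact f1
  · have := f2 j
    rw [D.hlm, D.hwx, D.hua] at this
    exact this
  · rw [D.hwx] at f3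
    exact f3

/-- **class C** -/
theorem jC21 (hM : 168 ∣ M) (hM0 : 0 < M) (H : PM s' k c t r s) (hs : s' = -1) :
    J15 M (KK M (fun m => C3 m ∧ C7 m) s' k c) t r s (G21 s' k) := by
  refine j_b (t := t) (r := r) (s := s) (g := 7) (h := 3) (fu := fun p => ra p (-7))
    (fw := fun p => if p = 2 then r + s else nr p 3) (e := 1) (x0 := 0) (κ := 1) (a0 := 1) (κ' := 0)
    ((by norm_num : 8 ∣ 168).trans hM) hM0 H.tr (pf21 hM hM0 (Or.inr rfl)) (by norm_num)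
    (pf21 hM hM0 (Or.inl rfl)) (by norm_num) (fun a ha => not7 (KJ ha).2.2)
    (fun a ha => not3 (KJ ha).2.1) (hf7 ((by norm_num : 7 ∣ 168).trans hM)) (fun p hp _ => by
      rw [if_neg hp.2]; ring) (Or.inl rfl) ?_
  intro V _ ρ S hS hK hne hρ him
  obtain ⟨h4, h3, h7⟩ := (m21 hM hM0 (per3.and per7)).1 hK
  obtain ⟨e1, e2, e3⟩ := prodS hS
  have D := H.dt hS h4 hρ him
  obtain ⟨i, hi⟩ := ne_V hne him
  haveI : Nonempty V := ⟨i⟩
  have h0 := H.neg' e3 hs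
  have h3S : 3 ∉ S := by
    intro h
    have h6 := dvd_m h s' k
    unfold C3 at h3
    push_cast at h3 h6
    omega
  have hv := hv3 D h3S
  obtain ⟨f1, f2, f3⟩ := Red21.factsC D.ix D.sq h0 h3 h7
  refine ⟨?_, ?_, fun j => ?_, ?_⟩
  · unfold Pool.Agent.N916.PQ.L21.G21
    rw [Red21.sgC D.ix D.sq ⟨i, dvd_m hi s' k⟩ h0 h3 h7, Kb_congr D.hlm, hv]
    rfl
  · rw [hv] at f1
    exact f1
  · have := f2 j
    rw [D.hlm, D.hwx, hv] at this
    exact this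
  · rw [D.hwx] at f3
    exact f3

end

/-- **the level 21 side, ordinary classes**, every modulus divisible by `168` -/
theorem s21M {M : ℕ} (hM : 168 ∣ M) (hM0 : 0 < M) {s' : ℤ} {k c : ℕ} {t : Bool} {r s : ZMod 2}
    (H : PM s' k c t r s) (K : Finset ℕ)
    (hK : ∀ a ∈ K, a % 4 = c ∧ fO (s' * (k * a : ℕ)) = true) : J15 M K t r s (G21 s' k) := by
  have ha : ∀ a ∈ K, a < M → 0 < a := by
    intro a ha h
    have h1 := (hK a ha).1
    rcases H.hc with h2 | h2 <;> omega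
  rcases H.hs with h | h
  · refine Pool.Agent.N972.JT.J15.mono hM0 ?_ (jB21 hM hM0 H h)
    intro a ha1 ha2
    have h1 := ha a ha1 ha2
    obtain ⟨h3, h4⟩ := hK a ha1
    rw [fO_pos (H.pos h1 h)] at h4
    exact KKm ha2 h3 h4
  · refine Pool.Agent.N972.JT.J15.mono hM0 ?_
      (Pool.Agent.N972.JT.J15.union (jA21 hM hM0 H h) (jC21 hM hM0 H h))
    intro a ha1 ha2
    have h1 := ha a ha1 ha2
    obtain ⟨h3, h4⟩ := hK a ha1
    rw [fO_neg (H.neg' h1 h)] at h4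
    rw [mem_union]
    rcases h4 with h4 | h4
    · exact Or.inl (KKm ha2 h3 h4)
    · exact Or.inr (KKm ha2 h3 h4)

end Pool.Agent.N975.JT
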