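import Pool.Agent.N809.JT.Hj
import Pool.Agent.N975.JT.S21
import Pool.Agent.N975.JT.Rn21

/-!
# JT: the joint law of the criteria of the levels 17 and 21 (ordinary classes of level 21)
-/

set_option autoImplicit false
set_option linter.all false

open scoped Classical

namespace Pool.Agent.N975.JT

open Finset Filter Module
open Pool.Agent.N916.GB (pt ps sx eta Po Vt)
open Pool.Agent.Y703.CQ (c2 nr)
open Pool.Agent.N916.AM (LAH Nd Rich Bs)
open Pool.Agent.N916.MO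
open Pool.Agent.N916.PQ (Hy Gc PM prodS PT pm_all hg_one)
open Pool.Agent.N916.PQ.L21 (G21 fO fO_pos fO_neg per3 per7)
open Pool.Agent.N972.P17 (Sx Sr)
open Pool.Agent.N969.P17G (SxP)
open Pool.Agent.N919.BS (NS NF HG Rt17)
open Pool.Agent.N875.X15 (d2 oe oe_mod d2_spec)
open Pool.Agent.N809.JT (J15 J17 j_pos j_neg det8 lahj)
open Pool.Agent.N963.JT (Sp sp_rt sp_mod KC KC_prop mem_KC ec01)

/-- the level 17 side, every modulus divisible by `136` -/
theorem key17 {M : ℕ} (h136 : 136 ∣ M) (hM0 : 0 < M) {s' : ℤ} {k c : ℕ} {t : Bool} {r s : ZMod 2}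
    (H : PM s' k c t r s) (K : Finset ℕ)
    (hK' : ∀ a ∈ K, a % 4 = c ∧ Rt17 (s' * ((k * a : ℕ) : ℤ))) :
    J17 M K t r s (fun S => G17 (s' * ((k * ∏ v ∈ S, v : ℕ) : ℤ))) (eta * c2) := by
  rcases det8 H with ⟨rfl, rfl, rfl, rfl, rfl, rfl⟩ | ⟨rfl, rfl, rfl, rfl, rfl, rfl⟩ |
    ⟨rfl, rfl, rfl, rfl, rfl, rfl⟩ | ⟨rfl, rfl, rfl, rfl, rfl, rfl⟩ |
    ⟨rfl, rfl, rfl, rfl, rfl, rfl⟩ | ⟨rfl, rfl, rfl, rfl, rfl, rfl⟩ |
    ⟨rfl, rfl, rfl, rfl, rfl, rfl⟩ | ⟨rfl, rfl, rfl, rfl, rfl, rfl⟩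
  · refine j_pos h136 hM0 (Or.inl rfl) (Or.inl rfl) H.ts H.tr (if_pos rfl).symm hK' ?_
    intro M h0 h1 h2 h3
    rw [G_pos (n := M) (by omega) (by rw [Kn_odd (by omega)]; omega)]
    exact SxP_iff (parP0 h2) pf_odd (odd2 (Or.inl h2)) h3
  · refine j_pos h136 hM0 (Or.inl rfl) (Or.inr rfl) H.ts H.tr (if_neg (by decide)).symm hK' ?_
    intro M h0 h1 h2 h3
    rw [G_pos (n := 4 * M) (by omega) (by rw [Kn_ev (by omega)]; omega)]
    exact SxP_iff (parP1 h2) (pf_4 h1.ne_zero) (odd2 (Or.inr h2)) (e17 (by norm_num) h3)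
  · refine j_pos h136 hM0 (Or.inr rfl) (Or.inl rfl) H.ts H.tr (if_pos rfl).symm hK' ?_
    intro M h0 h1 h2 h3
    rw [G_pos (n := 8 * M) (by omega) (by rw [Kn_ev (by omega)]; omega)]
    exact SxP_iff (parP2 h2) (pf_8 h1.ne_zero) (odd2 (Or.inl h2)) (e17 (by norm_num) h3)
  · refine j_pos h136 hM0 (Or.inr rfl) (Or.inr rfl) H.ts H.tr (if_neg (by decide)).symm hK' ?_
    intro M h0 h1 h2 h3
    rw [G_pos (n := 8 * M) (by omega) (by rw [Kn_ev (by omega)]; omega)]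
    exact SxP_iff (parP3 h2) (pf_8 h1.ne_zero) (odd2 (Or.inr h2)) (e17 (by norm_num) h3)
  · refine j_neg (e := 4) h136 hM0 (Or.inl rfl) (Or.inl rfl) H.ts H.tr
      (if_neg (by decide)).symm (by norm_num) hK' ?_ ?_ ?_
    · intro M h1 h2
      exact G_neg (by have := h1.ne_zero; omega) (by rw [Kn_ev (by omega)]; omega)
    · intro M h1 h2 h3
      exact Sx_iff (par1 h2) (pf_4 h1.ne_zero) (odd2 (Or.inl h2)) h3
    · intro M h1 h2 h3
      exact Sr_iff (par1 h2) (pf_4 h1.ne_zero) (odd2 (Or.inl h2)) h3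
        (mul_ne_zero (by norm_num) h1.ne_zero)
  · refine j_neg (e := 1) h136 hM0 (Or.inl rfl) (Or.inr rfl) H.ts H.tr
      (if_pos rfl).symm (by norm_num) hK' ?_ ?_ ?_
    · intro M h1 h2
      exact G_neg (by have := h1.ne_zero; omega) (by rw [Kn_odd (by omega)]; omega)
    · intro M h1 h2 h3
      rw [one_mul] at h3 ⊢
      exact Sx_iff (par0 h2) pf_odd (odd2 (Or.inr h2)) h3
    · intro M h1 h2 h3
      rw [one_mul] at h3 ⊢
      exact Sr_iff (par0 h2) pf_odd (odd2 (Or.inr h2)) h3 h1.ne_zero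
  · refine j_neg (e := 8) h136 hM0 (Or.inr rfl) (Or.inl rfl) H.ts H.tr
      (if_neg (by decide)).symm (by norm_num) hK' ?_ ?_ ?_
    · intro M h1 h2
      exact G_neg (by have := h1.ne_zero; omega) (by rw [Kn_ev (by omega)]; omega)
    · intro M h1 h2 h3
      exact Sx_iff (par2 h2) (pf_8 h1.ne_zero) (odd2 (Or.inl h2)) h3
    · intro M h1 h2 h3
      exact Sr_iff (par2 h2) (pf_8 h1.ne_zero) (odd2 (Or.inl h2)) h3
        (mul_ne_zero (by norm_num) h1.ne_zero)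
  · refine j_neg (e := 8) h136 hM0 (Or.inr rfl) (Or.inr rfl) H.ts H.tr
      (if_pos rfl).symm (by norm_num) hK' ?_ ?_ ?_
    · intro M h1 h2
      exact G_neg (by have := h1.ne_zero; omega) (by rw [Kn_ev (by omega)]; omega)
    · intro M h1 h2 h3
      exact Sx_iff (par3 h2) (pf_8 h1.ne_zero) (odd2 (Or.inr h2)) h3
    · intro M h1 h2 h3
      exact Sr_iff (par3 h2) (pf_8 h1.ne_zero) (odd2 (Or.inr h2)) h3
        (mul_ne_zero (by norm_num) h1.ne_zero)

theorem sp_fO {M : ℕ} (h : 21 ∣ M) : Sp M fun d => fO d = true := by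
  intro a b hab hM
  have h21 : a % (21 : ℕ) = b % (21 : ℕ) := by
    have h1 : ((21 : ℕ) : ℤ) ∣ M := Int.natCast_dvd_natCast.2 h
    rw [← Int.emod_emod_of_dvd a h1, hM, Int.emod_emod_of_dvd b h1]
  have e3 := per3 a b h21
  have e7 := per7 a b h21
  show fO a = true ↔ fO b = true
  rcases hab with ⟨h1, h2⟩ | ⟨h1, h2⟩
  · rw [fO_pos h1, fO_pos h2, e3, e7]
  · rw [fO_neg h1, fO_neg h2, e3, e7]

/-- **the joint law of the levels 17 and 21 in every residue class** (ordinary classes of level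
`21`) -/
theorem hg21_cls {m : ℕ} (hm : 0 < m) (A : Set ℤ) :
    HG (fun d => (fO d = true ∧ Rt17 d) ∧ d % (m : ℤ) ∈ A)
      (fun d => Pool.Agent.N809.PQ.Sg21 d ∧ G17 d) (eta * c2) := by
  intro s' k c hs hk hc
  obtain ⟨t, r, s, H⟩ := pm_all hs hk hc
  have hM : 0 < 2856 * m := by positivity
  have hdM : 2856 ∣ 2856 * m := Dvd.intro _ rfl
  have hP : Sp (2856 * m) fun d => (fO d = true ∧ Rt17 d) ∧ d % (m : ℤ) ∈ A :=
    ((sp_fO (Dvd.dvd.trans (by norm_num) hdM)).and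
      (sp_rt (Dvd.dvd.trans (by norm_num) hdM))).and (sp_mod (Dvd.intro_left _ rfl) A)
  have h4 : 4 ∣ 2856 * m := Dvd.dvd.trans (by norm_num) hdM
  have hK : ∀ a ∈ KC (2856 * m) (fun d => (fO d = true ∧ Rt17 d) ∧ d % (m : ℤ) ∈ A) s' k c,
      a % 4 = c ∧ fO (s' * (k * a : ℕ)) = true ∧ Rt17 (s' * (k * a : ℕ)) := by
    intro a ha
    have := KC_prop ha
    exact ⟨this.1, this.2.1⟩
  have h1M : 1 < 2856 * m := by omega
  have hL := lahj h1M
    (s21M (Dvd.dvd.trans (by norm_num) hdM) hM H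
      (KC (2856 * m) (fun d => (fO d = true ∧ Rt17 d) ∧ d % (m : ℤ) ∈ A) s' k c)
      fun a ha => ⟨(hK a ha).1, (hK a ha).2.1⟩)
    (key17 (Dvd.dvd.trans (by norm_num) hdM) hM H _ fun a ha => ⟨(hK a ha).1, (hK a ha).2.2⟩)
  have h := hg_one (s' := s') (k := k) (c := c) (M := 2856 * m)
    (f := fun d => decide ((fO d = true ∧ Rt17 d) ∧ d % (m : ℤ) ∈ A))
    (Q := fun d => Pool.Agent.N809.PQ.Sg21 d ∧ G17 d) (Dvd.dvd.trans (by norm_num) hdM) hM hc
    ec01.1 ec01.2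
    (fun n hn => by
      rw [mem_KC hM h4 hP hs hk hc hn, decide_eq_true_iff]) hL
  simpa only [decide_eq_true_iff] using h

/-- all the `d` of the ordinary classes with both root numbers `+ 1` -/
theorem hg21 : HG (fun d => fO d = true ∧ Rt17 d)
    (fun d => Pool.Agent.N809.PQ.Sg21 d ∧ G17 d) (eta * c2) := by
  have h := hg21_cls (m := 1) one_pos Set.univ
  simpa only [Set.mem_univ, and_true] using h

/-- **the joint densities (squarefree integers)** -/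
theorem joint21_NS :
    Tendsto (fun X : ℕ => (NS (fun d => (fO d = true ∧ Rt17 d) ∧
        (Pool.Agent.N809.PQ.Sg21 d ∧ G17 d)) X : ℝ) / (NS (fun _ => True) X : ℝ)) atTop
      (nhds (1849 / 9216 * (eta * c2))) ∧
    Tendsto (fun X : ℕ => (NS (fun d => (fO d = true ∧ Rt17 d) ∧
        (Pool.Agent.N809.PQ.Sg21 d ∧ G17 d)) X : ℝ) /
      (NS (fun d => fO d = true ∧ Rt17 d) X : ℝ)) atTop (nhds (eta * c2)) :=
  kt_NS hg21

/-- **the joint densities (discriminants)** -/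
theorem joint21_NF :
    Tendsto (fun X : ℕ => (NF (fun d => (fO d = true ∧ Rt17 d) ∧
        (Pool.Agent.N809.PQ.Sg21 d ∧ G17 d)) X : ℝ) / (NF (fun _ => True) X : ℝ)) atTop
      (nhds (1849 / 9216 * (eta * c2))) ∧
    Tendsto (fun X : ℕ => (NF (fun d => (fO d = true ∧ Rt17 d) ∧
        (Pool.Agent.N809.PQ.Sg21 d ∧ G17 d)) X : ℝ) /
      (NF (fun d => fO d = true ∧ Rt17 d) X : ℝ)) atTop (nhds (eta * c2)) :=
  kt_NF hg21

end Pool.Agent.N975.JT
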