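import Pool.Agent.N975.JT.Rn
import Pool.Agent.N916.MO.Hg
import Pool.Agent.N916.PQ.Main15

/-!
# JT: the densities of both and of at least one of the criteria of the levels 15 and 17
-/

set_option autoImplicit false
set_option linter.all false

namespace Pool.Agent.N975.JT

open Finset Filter
open Pool.Agent.N919.BS (NS NF HG Rt17 Fund core)
open Pool.Agent.N916.PQ (f15 NS_ne NF_ne sf15 fd15 f15_of_sg core_sq)
open Pool.Agent.N916.MO (G17 dens17_sf dens17_fd)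
open Pool.Agent.N809.PQ (Sg15)
open Pool.Agent.N916.GB (eta)
open Pool.Agent.Y703.CQ (c2)

theorem NS_ie (P Q : ℤ → Prop) (X : ℕ) :
    NS (fun d => P d ∨ Q d) X + NS (fun d => P d ∧ Q d) X = NS P X + NS Q X := by
  classical
  unfold Pool.Agent.N919.BS.NS
  rw [← card_union_add_card_inter ((Icc (-(X : ℤ)) X).filter fun d => Squarefree d ∧ P d)
    ((Icc (-(X : ℤ)) X).filter fun d => Squarefree d ∧ Q d)]
  congr 1
  · congr 1
    ext d
    simp only [mem_filter, mem_union]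
    tauto
  · congr 1
    ext d
    simp only [mem_filter, mem_inter]
    tauto

theorem NF_ie (P Q : ℤ → Prop) (X : ℕ) :
    NF (fun d => P d ∨ Q d) X + NF (fun d => P d ∧ Q d) X = NF P X + NF Q X := by
  classical
  unfold Pool.Agent.N919.BS.NF
  rw [← card_union_add_card_inter ((Icc (-(X : ℤ)) X).filter fun D => Fund D ∧ P (core D))
    ((Icc (-(X : ℤ)) X).filter fun D => Fund D ∧ Q (core D))]
  congr 1
  · congr 1
    ext d
    simp only [mem_filter, mem_union]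
    tauto
  · congr 1
    ext d
    simp only [mem_filter, mem_inter]
    tauto

theorem NS_congr {P Q : ℤ → Prop} (h : ∀ d, Squarefree d → (P d ↔ Q d)) : NS P = NS Q := by
  funext X
  unfold Pool.Agent.N919.BS.NS
  congr 1
  ext d
  simp only [mem_filter]
  constructor
  · rintro ⟨h1, h2, h3⟩
    exact ⟨h1, h2, (h d h2).1 h3⟩
  · rintro ⟨h1, h2, h3⟩
    exact ⟨h1, h2, (h d h2).2 h3⟩

theorem NF_congr {P Q : ℤ → Prop} (h : ∀ d, Squarefree d → (P d ↔ Q d)) : NF P = NF Q := by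
  funext X
  unfold Pool.Agent.N919.BS.NF
  congr 1
  ext d
  simp only [mem_filter]
  constructor
  · rintro ⟨h1, h2, h3⟩
    exact ⟨h1, h2, (h _ (core_sq h2)).1 h3⟩
  · rintro ⟨h1, h2, h3⟩
    exact ⟨h1, h2, (h _ (core_sq h2)).2 h3⟩

/-- the criterion of level 17 together with the root number -/
def S17 (d : ℤ) : Prop := Rt17 d ∧ G17 d

theorem both_iff {d : ℤ} (hs : Squarefree d) :
    ((f15 d = true ∧ Rt17 d) ∧ (Sg15 d ∧ G17 d)) ↔ (Sg15 d ∧ S17 d) := by
  unfold S17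
  constructor
  · rintro ⟨⟨h1, h2⟩, h3, h4⟩
    exact ⟨h3, h2, h4⟩
  · rintro ⟨h3, h2, h4⟩
    exact ⟨⟨f15_of_sg hs h3, h2⟩, h3, h4⟩

theorem or_lim {N : (ℤ → Prop) → ℕ → ℕ} {P Q : ℤ → Prop} {a b c : ℝ}
    (ie : ∀ X, N (fun d => P d ∨ Q d) X + N (fun d => P d ∧ Q d) X = N P X + N Q X)
    (hP : Tendsto (fun X : ℕ => (N P X : ℝ) / (N (fun _ => True) X : ℝ)) atTop (nhds a))
    (hQ : Tendsto (fun X : ℕ => (N Q X : ℝ) / (N (fun _ => True) X : ℝ)) atTop (nhds b))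
    (hPQ : Tendsto (fun X : ℕ => (N (fun d => P d ∧ Q d) X : ℝ) / (N (fun _ => True) X : ℝ)) atTop
      (nhds c)) :
    Tendsto (fun X : ℕ => (N (fun d => P d ∨ Q d) X : ℝ) / (N (fun _ => True) X : ℝ)) atTop
      (nhds (a + b - c)) := by
  refine ((hP.add hQ).sub hPQ).congr fun X => ?_
  have h : (N (fun d => P d ∨ Q d) X : ℝ) + N (fun d => P d ∧ Q d) X = N P X + N Q X := by
    exact_mod_cast ie X
  have e : (N (fun d => P d ∨ Q d) X : ℝ) = N P X + N Q X - N (fun d => P d ∧ Q d) X := by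
    linarith
  rw [e]
  ring

/-- **the joint densities, squarefree integers** -/
theorem joint_NS (hG : HG (fun d => f15 d = true ∧ Rt17 d) (fun d => Sg15 d ∧ G17 d) (eta * c2)) :
    Tendsto (fun X : ℕ => (NS (fun d => Sg15 d ∧ S17 d) X : ℝ) / (NS (fun _ => True) X : ℝ)) atTop
      (nhds (433 / 1728 * (eta * c2))) ∧
    Tendsto (fun X : ℕ => (NS (fun d => Sg15 d ∧ S17 d) X : ℝ) /
      (NS (fun d => f15 d = true ∧ Rt17 d) X : ℝ)) atTop (nhds (eta * c2)) ∧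
    Tendsto (fun X : ℕ => (NS (fun d => Sg15 d ∨ S17 d) X : ℝ) / (NS (fun _ => True) X : ℝ)) atTop
      (nhds (eta / 2 + c2 / 2 - 433 / 1728 * (eta * c2))) := by
  obtain ⟨h1, h2⟩ := jt_NS hG
  rw [NS_congr fun d hs => both_iff hs] at h1 h2
  exact ⟨h1, h2, or_lim (NS_ie _ _) sf15 dens17_sf h1⟩

/-- **the joint densities, discriminants** -/
theorem joint_NF (hG : HG (fun d => f15 d = true ∧ Rt17 d) (fun d => Sg15 d ∧ G17 d) (eta * c2)) :
    Tendsto (fun X : ℕ => (NF (fun d => Sg15 d ∧ S17 d) X : ℝ) / (NF (fun _ => True) X : ℝ)) atTop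
      (nhds (433 / 1728 * (eta * c2))) ∧
    Tendsto (fun X : ℕ => (NF (fun d => Sg15 d ∧ S17 d) X : ℝ) /
      (NF (fun d => f15 d = true ∧ Rt17 d) X : ℝ)) atTop (nhds (eta * c2)) ∧
    Tendsto (fun X : ℕ => (NF (fun d => Sg15 d ∨ S17 d) X : ℝ) / (NF (fun _ => True) X : ℝ)) atTop
      (nhds (eta / 2 + c2 / 2 - 433 / 1728 * (eta * c2))) := by
  obtain ⟨h1, h2⟩ := jt_NF hG
  rw [NF_congr fun d hs => both_iff hs] at h1 h2
  exact ⟨h1, h2, or_lim (NF_ie _ _) fd15 dens17_fd h1⟩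

end Pool.Agent.N975.JT
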