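import Pool.Agent.N916.PQ.Main21

/-!
# Natural densities of classes of squarefree integers and fundamental discriminants for a condition
# modulo `M = 4 q`, `q` odd and squarefree; the joint root number condition of the levels 15 and 17
-/

set_option autoImplicit false
set_option linter.all false

namespace Pool.Agent.N975.JT

open Finset Filter
open Pool.Agent.N919.BS (UU NN NS NF HG Rt17)
open Pool.Agent.N855.GF (SQ wt RR dl dl_pos lim_class)
open Pool.Agent.N916.PQ (fi NN_w NN_T f15 NS_ne NF_ne)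
open Pool.Agent.N916.PQ.L21 (lim_NS lim_NF hg_lim quo)

/-- the weights `wn a / q` of the classes modulo `M` -/
structure Wd (M q : ℕ) (wn : ℕ → ℕ) : Prop where
  pos : 0 < M
  four : 4 ∣ M
  q0 : 0 < q
  key : ∀ a ∈ range M, a % 2 = 1 → Squarefree (a.gcd M) ∧
    (RR M a).card * q = wn a * a.gcd M

/-- the weight of a property -/
def WF (M : ℕ) (wn : ℕ → ℕ) (f : ℤ → Bool) (s : ℤ) (k c : ℕ) : ℤ :=
  ∑ a ∈ range M, fi f s k c a * wn a

section
variable {M q : ℕ} {wn : ℕ → ℕ}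

theorem wt_wn (H : Wd M q wn) {a : ℕ} (ha : a < M) (h2 : a % 2 = 1) : wt M a = wn a / q := by
  obtain ⟨hsq, h4⟩ := H.key a (mem_range.2 ha) h2
  have hg : (0 : ℝ) < (a.gcd M : ℕ) := by
    have : 0 < a.gcd M := Nat.gcd_pos_of_pos_right a H.pos
    exact_mod_cast this
  have hq : (0 : ℝ) < (q : ℕ) := by exact_mod_cast H.q0
  unfold Pool.Agent.N855.GF.wt
  rw [if_pos hsq, div_eq_div_iff hg.ne' hq.ne']
  exact_mod_cast h4

theorem NN_lim (H : Wd M q wn) (f : ℤ → Bool) (s : ℤ) (k c : ℕ) (hc : c = 1 ∨ c = 3)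
    (hf : ∀ n : ℕ, n % 2 = 1 → f (s * (k * n : ℕ)) = f (s * (k * (n % M) : ℕ))) :
    Tendsto (fun Y : ℕ => (NN (fun d => f d = true) s k c Y : ℝ) / Y) atTop
      (nhds ((WF M wn f s k c : ℝ) / q * dl M)) := by
  have h1 : ∀ Y : ℕ, (NN (fun d => f d = true) s k c Y : ℝ) / Y =
      ∑ a ∈ range M, (fi f s k c a : ℝ) * (((SQ M a Y).card : ℝ) / Y) := by
    intro Y
    rw [NN_w H.pos H.four f s k c hc hf, sum_div]
    refine sum_congr rfl fun a _ => ?_
    have : (UU M a Y).card = (SQ M a Y).card := by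
      unfold Pool.Agent.N919.BS.UU Pool.Agent.N855.GF.SQ
      congr
    rw [this]
    ring
  have h2 : (WF M wn f s k c : ℝ) / q * dl M =
      ∑ a ∈ range M, (fi f s k c a : ℝ) * (wt M a * dl M) := by
    unfold WF
    push_cast
    rw [sum_div, sum_mul]
    refine sum_congr rfl fun a ha => ?_
    by_cases h : a % 2 = 1
    · rw [wt_wn H (mem_range.1 ha) h]
      ring
    · have : fi f s k c a = 0 := by
        unfold Pool.Agent.N916.PQ.fi
        rw [if_neg]
        rintro ⟨h3, -⟩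
        rcases hc with h | h <;> omega
      rw [this, Int.cast_zero, zero_mul, zero_mul, zero_div, zero_mul]
  rw [h2]
  simp only [h1]
  exact tendsto_finsetSum _ fun a ha =>
    (lim_class H.pos (mem_range.1 ha)).const_mul _

/-- the sums of a condition `f` are `A` (positive) and `B` (negative), the total sum is `T` -/
structure Cl (M q : ℕ) (wn : ℕ → ℕ) (f : ℤ → Bool) (A B T : ℤ) : Prop where
  wd : Wd M q wn
  per : ∀ (s : ℤ) (k n : ℕ), (s = 1 ∨ s = -1) → (k = 1 ∨ k = 2) → n % 2 = 1 →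
    f (s * (k * n : ℕ)) = f (s * (k * (n % M) : ℕ))
  wA : ∀ k c, (k = 1 ∨ k = 2) → (c = 1 ∨ c = 3) → WF M wn f 1 k c = A
  wB : ∀ k c, (k = 1 ∨ k = 2) → (c = 1 ∨ c = 3) → WF M wn f (-1) k c = B
  wT : ∀ c, (c = 1 ∨ c = 3) → WF M wn (fun _ => true) 1 1 c = T
  T0 : 0 < T

variable {f : ℤ → Bool} {A B T : ℤ}

theorem lA (H : Cl M q wn f A B T) (k c : ℕ) (hk : k = 1 ∨ k = 2) (hc : c = 1 ∨ c = 3) :
    Tendsto (fun Y : ℕ => (NN (fun d => f d = true) 1 k c Y : ℝ) / Y) atTop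
      (nhds ((A : ℝ) / q * dl M)) := by
  have h := NN_lim H.wd f 1 k c hc fun n hn => H.per 1 k n (Or.inl rfl) hk hn
  rw [H.wA k c hk hc] at h
  exact h

theorem lB (H : Cl M q wn f A B T) (k c : ℕ) (hk : k = 1 ∨ k = 2) (hc : c = 1 ∨ c = 3) :
    Tendsto (fun Y : ℕ => (NN (fun d => f d = true) (-1) k c Y : ℝ) / Y) atTop
      (nhds ((B : ℝ) / q * dl M)) := by
  have h := NN_lim H.wd f (-1) k c hc fun n hn => H.per (-1) k n (Or.inr rfl) hk hn
  rw [H.wB k c hk hc] at h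
  exact h

theorem lT (H : Cl M q wn f A B T) (s : ℤ) (k c : ℕ) (hc : c = 1 ∨ c = 3) :
    Tendsto (fun Y : ℕ => (NN (fun _ => True) s k c Y : ℝ) / Y) atTop
      (nhds ((T : ℝ) / q * dl M)) := by
  have h := NN_lim H.wd (fun _ => true) s k c hc fun n hn => rfl
  have hw : WF M wn (fun _ => true) s k c = T := H.wT c hc
  rw [hw] at h
  simp only [NN_T]
  exact h

/-- **the density of the condition** -/
theorem rat_NS (H : Cl M q wn f A B T) :
    Tendsto (fun X : ℕ => (NS (fun d => f d = true) X : ℝ) / (NS (fun _ => True) X : ℝ)) atTop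
      (nhds (((A : ℝ) + B) / (2 * T))) := by
  have hd : 0 < dl M := dl_pos H.wd.pos
  have hq : (0 : ℝ) < q := by exact_mod_cast H.wd.q0
  have hT : (0 : ℝ) < T := by exact_mod_cast H.T0
  refine quo (lim_NS (lA H) (lB H)) (lim_NS (fun k c _ => lT H 1 k c)
    fun k c _ => lT H (-1) k c) ?_ ?_
  · positivity
  · field_simp
    ring

theorem rat_NF (H : Cl M q wn f A B T) :
    Tendsto (fun X : ℕ => (NF (fun d => f d = true) X : ℝ) / (NF (fun _ => True) X : ℝ)) atTop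
      (nhds (((A : ℝ) + B) / (2 * T))) := by
  have hd : 0 < dl M := dl_pos H.wd.pos
  have hq : (0 : ℝ) < q := by exact_mod_cast H.wd.q0
  have hT : (0 : ℝ) < T := by exact_mod_cast H.T0
  refine quo (lim_NF (lA H) (lB H)) (lim_NF (fun k c _ => lT H 1 k c)
    fun k c _ => lT H (-1) k c) ?_ ?_
  · positivity
  · field_simp
    ring

variable {G : ℤ → Prop} {η : ℝ}

/-- **the density of a criterion of relative density `η` in all classes** -/
theorem ratG_NS (H : Cl M q wn f A B T) (hG : HG (fun d => f d = true) G η) :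
    Tendsto (fun X : ℕ => (NS (fun d => f d = true ∧ G d) X : ℝ) / (NS (fun _ => True) X : ℝ)) atTop
      (nhds (((A : ℝ) + B) / (2 * T) * η)) := by
  have hd : 0 < dl M := dl_pos H.wd.pos
  have hq : (0 : ℝ) < q := by exact_mod_cast H.wd.q0
  have hT : (0 : ℝ) < T := by exact_mod_cast H.T0
  refine quo (lim_NS (fun k c hk hc => hg_lim (c := 0) hG (Or.inl rfl) hk hc (lA H k c hk hc))
    fun k c hk hc => hg_lim (c := 0) hG (Or.inr rfl) hk hc (lB H k c hk hc))
    (lim_NS (fun k c _ => lT H 1 k c) fun k c _ => lT H (-1) k c) ?_ ?_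
  · positivity
  · field_simp
    ring

theorem ratG_NF (H : Cl M q wn f A B T) (hG : HG (fun d => f d = true) G η) :
    Tendsto (fun X : ℕ => (NF (fun d => f d = true ∧ G d) X : ℝ) / (NF (fun _ => True) X : ℝ)) atTop
      (nhds (((A : ℝ) + B) / (2 * T) * η)) := by
  have hd : 0 < dl M := dl_pos H.wd.pos
  have hq : (0 : ℝ) < q := by exact_mod_cast H.wd.q0
  have hT : (0 : ℝ) < T := by exact_mod_cast H.T0
  refine quo (lim_NF (fun k c hk hc => hg_lim (c := 0) hG (Or.inl rfl) hk hc (lA H k c hk hc))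
    fun k c hk hc => hg_lim (c := 0) hG (Or.inr rfl) hk hc (lB H k c hk hc))
    (lim_NF (fun k c _ => lT H 1 k c) fun k c _ => lT H (-1) k c) ?_ ?_
  · positivity
  · field_simp
    ring

/-- the proportion among the integers with `f` -/
theorem relG {N : (ℤ → Prop) → ℕ → ℕ} {w : ℝ} (hw : w ≠ 0)
    (h0 : ∀ᶠ X : ℕ in atTop, (N (fun _ => True) X : ℝ) ≠ 0)
    (h1 : Tendsto (fun X : ℕ => (N (fun d => f d = true) X : ℝ) / (N (fun _ => True) X : ℝ)) atTop
      (nhds w))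
    (h2 : Tendsto (fun X : ℕ => (N (fun d => f d = true ∧ G d) X : ℝ) / (N (fun _ => True) X : ℝ))
      atTop (nhds (w * η))) :
    Tendsto (fun X : ℕ => (N (fun d => f d = true ∧ G d) X : ℝ) / (N (fun d => f d = true) X : ℝ))
      atTop (nhds η) := by
  have h := h2.div h1 hw
  rw [mul_div_cancel_left₀ _ hw] at h
  refine h.congr' ?_
  filter_upwards [h0] with X hX
  change ((N (fun d => f d = true ∧ G d) X : ℝ) / (N (fun _ => True) X : ℝ)) /
    ((N (fun d => f d = true) X : ℝ) / (N (fun _ => True) X : ℝ)) = _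
  rw [div_div_div_cancel_right₀ hX]

end

/-! ### the levels 15 and 17 -/

/-- the root number condition of level 17 -/
def f17 (m : ℤ) : Bool := decide ((0 < m ∧ (m % 17 = 1 ∨ m % 17 = 2 ∨ m % 17 = 4 ∨ m % 17 = 8 ∨
    m % 17 = 9 ∨ m % 17 = 13 ∨ m % 17 = 15 ∨ m % 17 = 16)) ∨
  (m < 0 ∧ ¬ (m % 17 = 1 ∨ m % 17 = 2 ∨ m % 17 = 4 ∨ m % 17 = 8 ∨
    m % 17 = 9 ∨ m % 17 = 13 ∨ m % 17 = 15 ∨ m % 17 = 16)))

theorem js_iff (m : ℤ) : jacobiSym m 17 = 1 ↔ (m % 17 = 1 ∨ m % 17 = 2 ∨ m % 17 = 4 ∨ m % 17 = 8 ∨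
    m % 17 = 9 ∨ m % 17 = 13 ∨ m % 17 = 15 ∨ m % 17 = 16) := by
  rw [jacobiSym.mod_left]
  have h1 : (0 : ℤ) ≤ m % (17 : ℕ) := Int.emod_nonneg _ (by norm_num)
  have h2 : m % (17 : ℕ) < 17 := Int.emod_lt_of_pos _ (by norm_num)
  have e : m % 17 = m % ((17 : ℕ) : ℤ) := rfl
  rw [e]
  generalize m % ((17 : ℕ) : ℤ) = r at h1 h2 ⊢
  have key : ∀ r ∈ Finset.Ico (0 : ℤ) 17, (jacobiSym r 17 = 1 ↔ (r = 1 ∨ r = 2 ∨ r = 4 ∨ r = 8 ∨
    r = 9 ∨ r = 13 ∨ r = 15 ∨ r = 16)) := by decide +kernel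
  exact key r (Finset.mem_Ico.2 ⟨h1, h2⟩)

theorem f17_iff (m : ℤ) : f17 m = true ↔ Rt17 m := by
  unfold f17 Pool.Agent.N919.BS.Rt17
  rw [decide_eq_true_iff, Ne, js_iff]

/-- both root numbers are `+1` -/
def fJ (m : ℤ) : Bool := f15 m && f17 m

theorem fJ_iff (m : ℤ) : fJ m = true ↔ f15 m = true ∧ Rt17 m := by
  unfold fJ
  rw [Bool.and_eq_true, f17_iff]

theorem fJ_fun : (fun d => fJ d = true) = fun d => f15 d = true ∧ Rt17 d :=
  funext fun d => propext (fJ_iff d)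

/-- the weights modulo `1020` -/
def wJ (a : ℕ) : ℕ := (if a % 3 = 0 then 2 else 3) * (if a % 5 = 0 then 4 else 5) *
  (if a % 17 = 0 then 16 else 17)

theorem wJ_key : ∀ a ∈ range 1020, a % 2 = 1 → a.gcd 1020 ∣ 255 ∧
    (RR 1020 a).card * 255 = wJ a * a.gcd 1020 := by
  decide +kernel

theorem sq255 : Squarefree 255 := by
  have h : (255 : ℕ) = 3 * (5 * 17) := by norm_num
  rw [h, Nat.squarefree_mul (by norm_num), Nat.squarefree_mul (by norm_num)]
  exact ⟨Nat.prime_three.squarefree, Nat.prime_five.squarefree,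
    (by norm_num : Nat.Prime 17).squarefree⟩

theorem wdJ : Wd 1020 255 wJ where
  pos := by norm_num
  four := by norm_num
  q0 := by norm_num
  key := fun a ha h2 => ⟨sq255.squarefree_of_dvd (wJ_key a ha h2).1, (wJ_key a ha h2).2⟩

theorem perJ : ∀ (s : ℤ) (k n : ℕ), (s = 1 ∨ s = -1) → (k = 1 ∨ k = 2) → n % 2 = 1 →
    fJ (s * (k * n : ℕ)) = fJ (s * (k * (n % 1020) : ℕ)) := by
  intro s k n hs hk hn
  unfold fJ Pool.Agent.N916.PQ.f15 f17
  have e0 : (s * (k * n : ℕ) < 0) ↔ (s * (k * (n % 1020) : ℕ) < 0) := by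
    rcases hs with rfl | rfl <;> rcases hk with rfl | rfl <;> push_cast <;> omega
  have e1 : (0 < s * (k * n : ℕ)) ↔ (0 < s * (k * (n % 1020) : ℕ)) := by
    rcases hs with rfl | rfl <;> rcases hk with rfl | rfl <;> push_cast <;> omega
  have e3 : (s * (k * n : ℕ)) % 3 = (s * (k * (n % 1020) : ℕ)) % 3 := by
    rcases hs with rfl | rfl <;> rcases hk with rfl | rfl <;> push_cast <;> omega
  have e5 : (s * (k * n : ℕ)) % 5 = (s * (k * (n % 1020) : ℕ)) % 5 := by
    rcases hs with rfl | rfl <;> rcases hk with rfl | rfl <;> push_cast <;> omega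
  have e17 : (s * (k * n : ℕ)) % 17 = (s * (k * (n % 1020) : ℕ)) % 17 := by
    rcases hs with rfl | rfl <;> rcases hk with rfl | rfl <;> push_cast <;> omega
  simp only [e0, e1, e3, e5, e17]

theorem clJ : Cl 1020 255 wJ fJ 12512 15200 55296 where
  wd := wdJ
  per := perJ
  wA := by rintro k c (rfl | rfl) (rfl | rfl) <;> decide +kernel
  wB := by rintro k c (rfl | rfl) (rfl | rfl) <;> decide +kernel
  wT := by rintro c (rfl | rfl) <;> decide +kernel
  T0 := by norm_num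

/-- **both root numbers are `+1` for the proportion `433/1728` of the squarefree integers** -/
theorem rn_NS : Tendsto (fun X : ℕ => (NS (fun d => f15 d = true ∧ Rt17 d) X : ℝ) /
    (NS (fun _ => True) X : ℝ)) atTop (nhds (433 / 1728)) := by
  have h := rat_NS clJ
  rw [fJ_fun] at h
  have e : (((12512 : ℤ) : ℝ) + (15200 : ℤ)) / (2 * (55296 : ℤ)) = 433 / 1728 := by norm_num
  rwa [e] at h

/-- **both root numbers are `+1` for the proportion `433/1728` of the discriminants** -/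
theorem rn_NF : Tendsto (fun X : ℕ => (NF (fun d => f15 d = true ∧ Rt17 d) X : ℝ) /
    (NF (fun _ => True) X : ℝ)) atTop (nhds (433 / 1728)) := by
  have h := rat_NF clJ
  rw [fJ_fun] at h
  have e : (((12512 : ℤ) : ℝ) + (15200 : ℤ)) / (2 * (55296 : ℤ)) = 433 / 1728 := by norm_num
  rwa [e] at h

section
variable {G : ℤ → Prop} {η : ℝ}

/-- **a criterion of relative density `η` in all classes (squarefree integers)** -/
theorem jt_NS (hG : HG (fun d => f15 d = true ∧ Rt17 d) G η) :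
    Tendsto (fun X : ℕ => (NS (fun d => (f15 d = true ∧ Rt17 d) ∧ G d) X : ℝ) /
      (NS (fun _ => True) X : ℝ)) atTop (nhds (433 / 1728 * η)) ∧
    Tendsto (fun X : ℕ => (NS (fun d => (f15 d = true ∧ Rt17 d) ∧ G d) X : ℝ) /
      (NS (fun d => f15 d = true ∧ Rt17 d) X : ℝ)) atTop (nhds η) := by
  have e : (((12512 : ℤ) : ℝ) + (15200 : ℤ)) / (2 * (55296 : ℤ)) = 433 / 1728 := by norm_num
  have hf : (fun d => fJ d = true ∧ G d) = fun d => (f15 d = true ∧ Rt17 d) ∧ G d :=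
    funext fun d => by rw [fJ_iff]
  rw [← fJ_fun] at hG
  have h1 := rat_NS clJ
  have h2 := ratG_NS clJ hG
  have h3 := relG (N := NS) (by norm_num) NS_ne h1 h2
  rw [e, hf] at h2
  rw [hf, fJ_fun] at h3
  exact ⟨h2, h3⟩

/-- **a criterion of relative density `η` in all classes (discriminants)** -/
theorem jt_NF (hG : HG (fun d => f15 d = true ∧ Rt17 d) G η) :
    Tendsto (fun X : ℕ => (NF (fun d => (f15 d = true ∧ Rt17 d) ∧ G d) X : ℝ) /
      (NF (fun _ => True) X : ℝ)) atTop (nhds (433 / 1728 * η)) ∧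
    Tendsto (fun X : ℕ => (NF (fun d => (f15 d = true ∧ Rt17 d) ∧ G d) X : ℝ) /
      (NF (fun d => f15 d = true ∧ Rt17 d) X : ℝ)) atTop (nhds η) := by
  have e : (((12512 : ℤ) : ℝ) + (15200 : ℤ)) / (2 * (55296 : ℤ)) = 433 / 1728 := by norm_num
  have hf : (fun d => fJ d = true ∧ G d) = fun d => (f15 d = true ∧ Rt17 d) ∧ G d :=
    funext fun d => by rw [fJ_iff]
  rw [← fJ_fun] at hG
  have h1 := rat_NF clJ
  have h2 := ratG_NF clJ hG
  have h3 := relG (N := NF) (by norm_num) NF_ne h1 h2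
  rw [e, hf] at h2
  rw [hf, fJ_fun] at h3
  exact ⟨h2, h3⟩

end

end Pool.Agent.N975.JT
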