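import Pool.Agent.N975.JT.Rn21

/-!
# JT: the densities of the classes for the pairs (15,21) and (17,21)
-/

set_option autoImplicit false
set_option linter.all false

namespace Pool.Agent.N975.JT

open Finset Filter
open Pool.Agent.N919.BS (NS NF HG Rt17)
open Pool.Agent.N855.GF (RR)
open Pool.Agent.N916.PQ (f15 NS_ne NF_ne)
open Pool.Agent.N809.Red21 (f21 fD)

/-- both root numbers (levels 15 and 21) are `+1` -/
def f1521 (m : ℤ) : Bool := f15 m && f21 m

/-- the class in which the criteria of the levels 15 and 21 are the same -/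
def fEq (m : ℤ) : Bool := decide (m < 0 ∧ m % 3 = 0 ∧ ¬ (m % 5 = 1 ∨ m % 5 = 4) ∧
  ¬ (m % 7 = 3 ∨ m % 7 = 5 ∨ m % 7 = 6))

/-- both root numbers (levels 15 and 21) are `+1`, outside the class `fEq` -/
def fNe (m : ℤ) : Bool := f1521 m && !fEq m

/-- both root numbers (levels 17 and 21) are `+1` -/
def f1721 (m : ℤ) : Bool := f17 m && f21 m

/-- the exceptional class of level 21 with the root number `+1` of level 17 -/
def fX17 (m : ℤ) : Bool := f17 m && fD m

/-- the weights modulo `420` -/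
def wP (a : ℕ) : ℕ := (if a % 3 = 0 then 2 else 3) * (if a % 5 = 0 then 4 else 5) * (if a % 7 = 0 then 6 else 7)

theorem wP_key' : ∀ a ∈ range 420, a % 2 = 1 → a.gcd 420 ∣ 105 ∧
    ((range (a.gcd 420)).filter fun j =>
      Nat.Coprime ((a / a.gcd 420) % (420 / a.gcd 420) + j * (420 / a.gcd 420)) 420).card * 105
        = wP a * a.gcd 420 := by
  decide +kernel

theorem wP_key (a : ℕ) (ha : a ∈ range 420) (h2 : a % 2 = 1) : a.gcd 420 ∣ 105 ∧
    (RR 420 a).card * 105 = wP a * a.gcd 420 := by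
  rw [RR_card a (by norm_num)]
  exact wP_key' a ha h2

theorem sq105 : Squarefree 105 := by
  have h : (105 : ℕ) = 3 * (5 * 7) := by norm_num
  rw [h, Nat.squarefree_mul (by norm_num), Nat.squarefree_mul (by norm_num)]
  exact ⟨(by norm_num : Nat.Prime 3).squarefree, (by norm_num : Nat.Prime 5).squarefree,
    (by norm_num : Nat.Prime 7).squarefree⟩

theorem wdP : Wd 420 105 wP where
  pos := by norm_num
  four := by norm_num
  q0 := by norm_num
  key := fun a ha h2 => ⟨sq105.squarefree_of_dvd (wP_key a ha h2).1, (wP_key a ha h2).2⟩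

theorem per_f1521 : ∀ (s : ℤ) (k n : ℕ), (s = 1 ∨ s = -1) → (k = 1 ∨ k = 2) → n % 2 = 1 →
    f1521 (s * (k * n : ℕ)) = f1521 (s * (k * (n % 420) : ℕ)) := by
  intro s k n hs hk hn
  unfold f1521 Pool.Agent.N916.PQ.f15 Pool.Agent.N809.Red21.f21
  have e0 : (s * (k * n : ℕ) < 0) ↔ (s * (k * (n % 420) : ℕ) < 0) := by
    rcases hs with rfl | rfl <;> rcases hk with rfl | rfl <;> push_cast <;> omega
  have e1 : (0 < s * (k * n : ℕ)) ↔ (0 < s * (k * (n % 420) : ℕ)) := by
    rcases hs with rfl | rfl <;> rcases hk with rfl | rfl <;> push_cast <;> omega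
  have e3 : (s * (k * n : ℕ)) % 3 = (s * (k * (n % 420) : ℕ)) % 3 := by
    rcases hs with rfl | rfl <;> rcases hk with rfl | rfl <;> push_cast <;> omega
  have e5 : (s * (k * n : ℕ)) % 5 = (s * (k * (n % 420) : ℕ)) % 5 := by
    rcases hs with rfl | rfl <;> rcases hk with rfl | rfl <;> push_cast <;> omega
  have e7 : (s * (k * n : ℕ)) % 7 = (s * (k * (n % 420) : ℕ)) % 7 := by
    rcases hs with rfl | rfl <;> rcases hk with rfl | rfl <;> push_cast <;> omega
  simp only [e0, e1, e3, e5, e7]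

theorem clP : Cl 420 105 wP f1521 2112 2448 9216 where
  wd := wdP
  per := per_f1521
  wA := by rintro k c (rfl | rfl) (rfl | rfl) <;> decide +kernel
  wB := by rintro k c (rfl | rfl) (rfl | rfl) <;> decide +kernel
  wT := by rintro c (rfl | rfl) <;> decide +kernel
  T0 := by norm_num

/-- the density of the class `f1521` -/
theorem clP_NS : Tendsto (fun X : ℕ => (NS (fun d => f1521 d = true) X : ℝ) /
    (NS (fun _ => True) X : ℝ)) atTop (nhds (95 / 384)) := by
  have e : (((2112 : ℤ) : ℝ) + (2448 : ℤ)) / (2 * (9216 : ℤ)) = 95 / 384 := by norm_num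
  rw [← e]
  exact rat_NS clP

theorem clP_NF : Tendsto (fun X : ℕ => (NF (fun d => f1521 d = true) X : ℝ) /
    (NF (fun _ => True) X : ℝ)) atTop (nhds (95 / 384)) := by
  have e : (((2112 : ℤ) : ℝ) + (2448 : ℤ)) / (2 * (9216 : ℤ)) = 95 / 384 := by norm_num
  rw [← e]
  exact rat_NF clP

/-- a criterion of relative density `η` in the class `f1521` -/
theorem clP_GS {G : ℤ → Prop} {η : ℝ} (hG : HG (fun d => f1521 d = true) G η) :
    Tendsto (fun X : ℕ => (NS (fun d => f1521 d = true ∧ G d) X : ℝ) /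
    (NS (fun _ => True) X : ℝ)) atTop (nhds (95 / 384 * η)) := by
  have e : (((2112 : ℤ) : ℝ) + (2448 : ℤ)) / (2 * (9216 : ℤ)) = 95 / 384 := by norm_num
  rw [← e]
  exact ratG_NS clP hG

theorem clP_GF {G : ℤ → Prop} {η : ℝ} (hG : HG (fun d => f1521 d = true) G η) :
    Tendsto (fun X : ℕ => (NF (fun d => f1521 d = true ∧ G d) X : ℝ) /
    (NF (fun _ => True) X : ℝ)) atTop (nhds (95 / 384 * η)) := by
  have e : (((2112 : ℤ) : ℝ) + (2448 : ℤ)) / (2 * (9216 : ℤ)) = 95 / 384 := by norm_num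
  rw [← e]
  exact ratG_NF clP hG

theorem per_fEq : ∀ (s : ℤ) (k n : ℕ), (s = 1 ∨ s = -1) → (k = 1 ∨ k = 2) → n % 2 = 1 →
    fEq (s * (k * n : ℕ)) = fEq (s * (k * (n % 420) : ℕ)) := by
  intro s k n hs hk hn
  unfold fEq
  have e0 : (s * (k * n : ℕ) < 0) ↔ (s * (k * (n % 420) : ℕ) < 0) := by
    rcases hs with rfl | rfl <;> rcases hk with rfl | rfl <;> push_cast <;> omega
  have e1 : (0 < s * (k * n : ℕ)) ↔ (0 < s * (k * (n % 420) : ℕ)) := by
    rcases hs with rfl | rfl <;> rcases hk with rfl | rfl <;> push_cast <;> omega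
  have e3 : (s * (k * n : ℕ)) % 3 = (s * (k * (n % 420) : ℕ)) % 3 := by
    rcases hs with rfl | rfl <;> rcases hk with rfl | rfl <;> push_cast <;> omega
  have e5 : (s * (k * n : ℕ)) % 5 = (s * (k * (n % 420) : ℕ)) % 5 := by
    rcases hs with rfl | rfl <;> rcases hk with rfl | rfl <;> push_cast <;> omega
  have e7 : (s * (k * n : ℕ)) % 7 = (s * (k * (n % 420) : ℕ)) % 7 := by
    rcases hs with rfl | rfl <;> rcases hk with rfl | rfl <;> push_cast <;> omega
  simp only [e0, e1, e3, e5, e7]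

theorem clE : Cl 420 105 wP fEq 0 756 9216 where
  wd := wdP
  per := per_fEq
  wA := by rintro k c (rfl | rfl) (rfl | rfl) <;> decide +kernel
  wB := by rintro k c (rfl | rfl) (rfl | rfl) <;> decide +kernel
  wT := by rintro c (rfl | rfl) <;> decide +kernel
  T0 := by norm_num

/-- the density of the class `fEq` -/
theorem clE_NS : Tendsto (fun X : ℕ => (NS (fun d => fEq d = true) X : ℝ) /
    (NS (fun _ => True) X : ℝ)) atTop (nhds (21 / 512)) := by
  have e : (((0 : ℤ) : ℝ) + (756 : ℤ)) / (2 * (9216 : ℤ)) = 21 / 512 := by norm_num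
  rw [← e]
  exact rat_NS clE

theorem clE_NF : Tendsto (fun X : ℕ => (NF (fun d => fEq d = true) X : ℝ) /
    (NF (fun _ => True) X : ℝ)) atTop (nhds (21 / 512)) := by
  have e : (((0 : ℤ) : ℝ) + (756 : ℤ)) / (2 * (9216 : ℤ)) = 21 / 512 := by norm_num
  rw [← e]
  exact rat_NF clE

/-- a criterion of relative density `η` in the class `fEq` -/
theorem clE_GS {G : ℤ → Prop} {η : ℝ} (hG : HG (fun d => fEq d = true) G η) :
    Tendsto (fun X : ℕ => (NS (fun d => fEq d = true ∧ G d) X : ℝ) /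
    (NS (fun _ => True) X : ℝ)) atTop (nhds (21 / 512 * η)) := by
  have e : (((0 : ℤ) : ℝ) + (756 : ℤ)) / (2 * (9216 : ℤ)) = 21 / 512 := by norm_num
  rw [← e]
  exact ratG_NS clE hG

theorem clE_GF {G : ℤ → Prop} {η : ℝ} (hG : HG (fun d => fEq d = true) G η) :
    Tendsto (fun X : ℕ => (NF (fun d => fEq d = true ∧ G d) X : ℝ) /
    (NF (fun _ => True) X : ℝ)) atTop (nhds (21 / 512 * η)) := by
  have e : (((0 : ℤ) : ℝ) + (756 : ℤ)) / (2 * (9216 : ℤ)) = 21 / 512 := by norm_num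
  rw [← e]
  exact ratG_NF clE hG

theorem per_f1721 : ∀ (s : ℤ) (k n : ℕ), (s = 1 ∨ s = -1) → (k = 1 ∨ k = 2) → n % 2 = 1 →
    f1721 (s * (k * n : ℕ)) = f1721 (s * (k * (n % 1428) : ℕ)) := by
  intro s k n hs hk hn
  unfold f1721 Pool.Agent.N809.Red21.f21 f17
  have e0 : (s * (k * n : ℕ) < 0) ↔ (s * (k * (n % 1428) : ℕ) < 0) := by
    rcases hs with rfl | rfl <;> rcases hk with rfl | rfl <;> push_cast <;> omega
  have e1 : (0 < s * (k * n : ℕ)) ↔ (0 < s * (k * (n % 1428) : ℕ)) := by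
    rcases hs with rfl | rfl <;> rcases hk with rfl | rfl <;> push_cast <;> omega
  have e3 : (s * (k * n : ℕ)) % 3 = (s * (k * (n % 1428) : ℕ)) % 3 := by
    rcases hs with rfl | rfl <;> rcases hk with rfl | rfl <;> push_cast <;> omega
  have e7 : (s * (k * n : ℕ)) % 7 = (s * (k * (n % 1428) : ℕ)) % 7 := by
    rcases hs with rfl | rfl <;> rcases hk with rfl | rfl <;> push_cast <;> omega
  have e17 : (s * (k * n : ℕ)) % 17 = (s * (k * (n % 1428) : ℕ)) % 17 := by
    rcases hs with rfl | rfl <;> rcases hk with rfl | rfl <;> push_cast <;> omega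
  simp only [e0, e1, e3, e7, e17]

theorem clM : Cl 1428 357 wK f1721 25296 30096 110592 where
  wd := wdK
  per := per_f1721
  wA := by rintro k c (rfl | rfl) (rfl | rfl) <;> decide +kernel
  wB := by rintro k c (rfl | rfl) (rfl | rfl) <;> decide +kernel
  wT := by rintro c (rfl | rfl) <;> decide +kernel
  T0 := by norm_num

/-- the density of the class `f1721` -/
theorem clM_NS : Tendsto (fun X : ℕ => (NS (fun d => f1721 d = true) X : ℝ) /
    (NS (fun _ => True) X : ℝ)) atTop (nhds (577 / 2304)) := by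
  have e : (((25296 : ℤ) : ℝ) + (30096 : ℤ)) / (2 * (110592 : ℤ)) = 577 / 2304 := by norm_num
  rw [← e]
  exact rat_NS clM

theorem clM_NF : Tendsto (fun X : ℕ => (NF (fun d => f1721 d = true) X : ℝ) /
    (NF (fun _ => True) X : ℝ)) atTop (nhds (577 / 2304)) := by
  have e : (((25296 : ℤ) : ℝ) + (30096 : ℤ)) / (2 * (110592 : ℤ)) = 577 / 2304 := by norm_num
  rw [← e]
  exact rat_NF clM

/-- a criterion of relative density `η` in the class `f1721` -/
theorem clM_GS {G : ℤ → Prop} {η : ℝ} (hG : HG (fun d => f1721 d = true) G η) :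
    Tendsto (fun X : ℕ => (NS (fun d => f1721 d = true ∧ G d) X : ℝ) /
    (NS (fun _ => True) X : ℝ)) atTop (nhds (577 / 2304 * η)) := by
  have e : (((25296 : ℤ) : ℝ) + (30096 : ℤ)) / (2 * (110592 : ℤ)) = 577 / 2304 := by norm_num
  rw [← e]
  exact ratG_NS clM hG

theorem clM_GF {G : ℤ → Prop} {η : ℝ} (hG : HG (fun d => f1721 d = true) G η) :
    Tendsto (fun X : ℕ => (NF (fun d => f1721 d = true ∧ G d) X : ℝ) /
    (NF (fun _ => True) X : ℝ)) atTop (nhds (577 / 2304 * η)) := by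
  have e : (((25296 : ℤ) : ℝ) + (30096 : ℤ)) / (2 * (110592 : ℤ)) = 577 / 2304 := by norm_num
  rw [← e]
  exact ratG_NF clM hG

theorem per_fX17 : ∀ (s : ℤ) (k n : ℕ), (s = 1 ∨ s = -1) → (k = 1 ∨ k = 2) → n % 2 = 1 →
    fX17 (s * (k * n : ℕ)) = fX17 (s * (k * (n % 1428) : ℕ)) := by
  intro s k n hs hk hn
  unfold fX17 Pool.Agent.N809.Red21.fD f17
  have e0 : (s * (k * n : ℕ) < 0) ↔ (s * (k * (n % 1428) : ℕ) < 0) := by
    rcases hs with rfl | rfl <;> rcases hk with rfl | rfl <;> push_cast <;> omega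
  have e1 : (0 < s * (k * n : ℕ)) ↔ (0 < s * (k * (n % 1428) : ℕ)) := by
    rcases hs with rfl | rfl <;> rcases hk with rfl | rfl <;> push_cast <;> omega
  have e3 : (s * (k * n : ℕ)) % 3 = (s * (k * (n % 1428) : ℕ)) % 3 := by
    rcases hs with rfl | rfl <;> rcases hk with rfl | rfl <;> push_cast <;> omega
  have e7 : (s * (k * n : ℕ)) % 7 = (s * (k * (n % 1428) : ℕ)) % 7 := by
    rcases hs with rfl | rfl <;> rcases hk with rfl | rfl <;> push_cast <;> omega
  have e17 : (s * (k * n : ℕ)) % 17 = (s * (k * (n % 1428) : ℕ)) % 17 := by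
    rcases hs with rfl | rfl <;> rcases hk with rfl | rfl <;> push_cast <;> omega
  simp only [e0, e1, e3, e7, e17]

theorem clX : Cl 1428 357 wK fX17 11016 0 110592 where
  wd := wdK
  per := per_fX17
  wA := by rintro k c (rfl | rfl) (rfl | rfl) <;> decide +kernel
  wB := by rintro k c (rfl | rfl) (rfl | rfl) <;> decide +kernel
  wT := by rintro c (rfl | rfl) <;> decide +kernel
  T0 := by norm_num

/-- the density of the class `fX17` -/
theorem clX_NS : Tendsto (fun X : ℕ => (NS (fun d => fX17 d = true) X : ℝ) /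
    (NS (fun _ => True) X : ℝ)) atTop (nhds (51 / 1024)) := by
  have e : (((11016 : ℤ) : ℝ) + (0 : ℤ)) / (2 * (110592 : ℤ)) = 51 / 1024 := by norm_num
  rw [← e]
  exact rat_NS clX

theorem clX_NF : Tendsto (fun X : ℕ => (NF (fun d => fX17 d = true) X : ℝ) /
    (NF (fun _ => True) X : ℝ)) atTop (nhds (51 / 1024)) := by
  have e : (((11016 : ℤ) : ℝ) + (0 : ℤ)) / (2 * (110592 : ℤ)) = 51 / 1024 := by norm_num
  rw [← e]
  exact rat_NF clX

/-- a criterion of relative density `η` in the class `fX17` -/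
theorem clX_GS {G : ℤ → Prop} {η : ℝ} (hG : HG (fun d => fX17 d = true) G η) :
    Tendsto (fun X : ℕ => (NS (fun d => fX17 d = true ∧ G d) X : ℝ) /
    (NS (fun _ => True) X : ℝ)) atTop (nhds (51 / 1024 * η)) := by
  have e : (((11016 : ℤ) : ℝ) + (0 : ℤ)) / (2 * (110592 : ℤ)) = 51 / 1024 := by norm_num
  rw [← e]
  exact ratG_NS clX hG

theorem clX_GF {G : ℤ → Prop} {η : ℝ} (hG : HG (fun d => fX17 d = true) G η) :
    Tendsto (fun X : ℕ => (NF (fun d => fX17 d = true ∧ G d) X : ℝ) /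
    (NF (fun _ => True) X : ℝ)) atTop (nhds (51 / 1024 * η)) := by
  have e : (((11016 : ℤ) : ℝ) + (0 : ℤ)) / (2 * (110592 : ℤ)) = 51 / 1024 := by norm_num
  rw [← e]
  exact ratG_NF clX hG

theorem per_fNe : ∀ (s : ℤ) (k n : ℕ), (s = 1 ∨ s = -1) → (k = 1 ∨ k = 2) → n % 2 = 1 →
    fNe (s * (k * n : ℕ)) = fNe (s * (k * (n % 420) : ℕ)) := by
  intro s k n hs hk hn
  unfold fNe f1521 fEq Pool.Agent.N916.PQ.f15 Pool.Agent.N809.Red21.f21
  have e0 : (s * (k * n : ℕ) < 0) ↔ (s * (k * (n % 420) : ℕ) < 0) := by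
    rcases hs with rfl | rfl <;> rcases hk with rfl | rfl <;> push_cast <;> omega
  have e1 : (0 < s * (k * n : ℕ)) ↔ (0 < s * (k * (n % 420) : ℕ)) := by
    rcases hs with rfl | rfl <;> rcases hk with rfl | rfl <;> push_cast <;> omega
  have e3 : (s * (k * n : ℕ)) % 3 = (s * (k * (n % 420) : ℕ)) % 3 := by
    rcases hs with rfl | rfl <;> rcases hk with rfl | rfl <;> push_cast <;> omega
  have e5 : (s * (k * n : ℕ)) % 5 = (s * (k * (n % 420) : ℕ)) % 5 := by
    rcases hs with rfl | rfl <;> rcases hk with rfl | rfl <;> push_cast <;> omega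
  have e7 : (s * (k * n : ℕ)) % 7 = (s * (k * (n % 420) : ℕ)) % 7 := by
    rcases hs with rfl | rfl <;> rcases hk with rfl | rfl <;> push_cast <;> omega
  simp only [e0, e1, e3, e5, e7]

theorem clN : Cl 420 105 wP fNe 2112 1692 9216 where
  wd := wdP
  per := per_fNe
  wA := by rintro k c (rfl | rfl) (rfl | rfl) <;> decide +kernel
  wB := by rintro k c (rfl | rfl) (rfl | rfl) <;> decide +kernel
  wT := by rintro c (rfl | rfl) <;> decide +kernel
  T0 := by norm_num

/-- the density of the class `fNe` -/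
theorem clN_NS : Tendsto (fun X : ℕ => (NS (fun d => fNe d = true) X : ℝ) /
    (NS (fun _ => True) X : ℝ)) atTop (nhds (317 / 1536)) := by
  have e : (((2112 : ℤ) : ℝ) + (1692 : ℤ)) / (2 * (9216 : ℤ)) = 317 / 1536 := by norm_num
  rw [← e]
  exact rat_NS clN

theorem clN_NF : Tendsto (fun X : ℕ => (NF (fun d => fNe d = true) X : ℝ) /
    (NF (fun _ => True) X : ℝ)) atTop (nhds (317 / 1536)) := by
  have e : (((2112 : ℤ) : ℝ) + (1692 : ℤ)) / (2 * (9216 : ℤ)) = 317 / 1536 := by norm_num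
  rw [← e]
  exact rat_NF clN

/-- a criterion of relative density `η` in the class `fNe` -/
theorem clN_GS {G : ℤ → Prop} {η : ℝ} (hG : HG (fun d => fNe d = true) G η) :
    Tendsto (fun X : ℕ => (NS (fun d => fNe d = true ∧ G d) X : ℝ) /
    (NS (fun _ => True) X : ℝ)) atTop (nhds (317 / 1536 * η)) := by
  have e : (((2112 : ℤ) : ℝ) + (1692 : ℤ)) / (2 * (9216 : ℤ)) = 317 / 1536 := by norm_num
  rw [← e]
  exact ratG_NS clN hG

theorem clN_GF {G : ℤ → Prop} {η : ℝ} (hG : HG (fun d => fNe d = true) G η) :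
    Tendsto (fun X : ℕ => (NF (fun d => fNe d = true ∧ G d) X : ℝ) /
    (NF (fun _ => True) X : ℝ)) atTop (nhds (317 / 1536 * η)) := by
  have e : (((2112 : ℤ) : ℝ) + (1692 : ℤ)) / (2 * (9216 : ℤ)) = 317 / 1536 := by norm_num
  rw [← e]
  exact ratG_NF clN hG

theorem per_fD : ∀ (s : ℤ) (k n : ℕ), (s = 1 ∨ s = -1) → (k = 1 ∨ k = 2) → n % 2 = 1 →
    fD (s * (k * n : ℕ)) = fD (s * (k * (n % 1428) : ℕ)) := by
  intro s k n hs hk hn
  unfold Pool.Agent.N809.Red21.fD
  have e0 : (s * (k * n : ℕ) < 0) ↔ (s * (k * (n % 1428) : ℕ) < 0) := by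
    rcases hs with rfl | rfl <;> rcases hk with rfl | rfl <;> push_cast <;> omega
  have e1 : (0 < s * (k * n : ℕ)) ↔ (0 < s * (k * (n % 1428) : ℕ)) := by
    rcases hs with rfl | rfl <;> rcases hk with rfl | rfl <;> push_cast <;> omega
  have e3 : (s * (k * n : ℕ)) % 3 = (s * (k * (n % 1428) : ℕ)) % 3 := by
    rcases hs with rfl | rfl <;> rcases hk with rfl | rfl <;> push_cast <;> omega
  have e7 : (s * (k * n : ℕ)) % 7 = (s * (k * (n % 1428) : ℕ)) % 7 := by
    rcases hs with rfl | rfl <;> rcases hk with rfl | rfl <;> push_cast <;> omega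
  simp only [e0, e1, e3, e7]

theorem clD : Cl 1428 357 wK fD 23328 0 110592 where
  wd := wdK
  per := per_fD
  wA := by rintro k c (rfl | rfl) (rfl | rfl) <;> decide +kernel
  wB := by rintro k c (rfl | rfl) (rfl | rfl) <;> decide +kernel
  wT := by rintro c (rfl | rfl) <;> decide +kernel
  T0 := by norm_num

/-- the density of the class `fD` -/
theorem clD_NS : Tendsto (fun X : ℕ => (NS (fun d => fD d = true) X : ℝ) /
    (NS (fun _ => True) X : ℝ)) atTop (nhds (27 / 256)) := by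
  have e : (((23328 : ℤ) : ℝ) + (0 : ℤ)) / (2 * (110592 : ℤ)) = 27 / 256 := by norm_num
  rw [← e]
  exact rat_NS clD

theorem clD_NF : Tendsto (fun X : ℕ => (NF (fun d => fD d = true) X : ℝ) /
    (NF (fun _ => True) X : ℝ)) atTop (nhds (27 / 256)) := by
  have e : (((23328 : ℤ) : ℝ) + (0 : ℤ)) / (2 * (110592 : ℤ)) = 27 / 256 := by norm_num
  rw [← e]
  exact rat_NF clD

/-- a criterion of relative density `η` in the class `fD` -/
theorem clD_GS {G : ℤ → Prop} {η : ℝ} (hG : HG (fun d => fD d = true) G η) :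
    Tendsto (fun X : ℕ => (NS (fun d => fD d = true ∧ G d) X : ℝ) /
    (NS (fun _ => True) X : ℝ)) atTop (nhds (27 / 256 * η)) := by
  have e : (((23328 : ℤ) : ℝ) + (0 : ℤ)) / (2 * (110592 : ℤ)) = 27 / 256 := by norm_num
  rw [← e]
  exact ratG_NS clD hG

theorem clD_GF {G : ℤ → Prop} {η : ℝ} (hG : HG (fun d => fD d = true) G η) :
    Tendsto (fun X : ℕ => (NF (fun d => fD d = true ∧ G d) X : ℝ) /
    (NF (fun _ => True) X : ℝ)) atTop (nhds (27 / 256 * η)) := by
  have e : (((23328 : ℤ) : ℝ) + (0 : ℤ)) / (2 * (110592 : ℤ)) = 27 / 256 := by norm_num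
  rw [← e]
  exact ratG_NF clD hG

end Pool.Agent.N975.JT
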